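import Pool.Agent.H81SSE.Core

/-!
# Changing the left factor, and joining two lifts of one matrix
-/

set_option autoImplicit false

namespace Pool.Agent.H81SSE

open Matrix

/-- All entries at least `c`. -/
def GE {α β : Type} (c : ℤ) (A : Matrix α β ℤ) : Prop := ∀ i j, c ≤ A i j

lemma GE.mono {α β : Type} {c c' : ℤ} {A : Matrix α β ℤ} (h : GE c A) (hc : c' ≤ c) : GE c' A :=
  fun i j => hc.trans (h i j)

lemma GE.nn {α β : Type} {c : ℤ} {A : Matrix α β ℤ} (h : GE c A) (hc : 0 ≤ c) : NN A :=
  fun i j => hc.trans (h i j)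

lemma exists_bd {α β : Type} [Fintype α] [Fintype β] (A : Matrix α β ℤ) :
    ∃ u : ℤ, 1 ≤ u ∧ ∀ i j, |A i j| ≤ u := by
  refine ⟨1 + ∑ i, ∑ j, |A i j|, ?_, ?_⟩
  · have : 0 ≤ ∑ i, ∑ j, |A i j| :=
      Finset.sum_nonneg fun i _ => Finset.sum_nonneg fun j _ => abs_nonneg _
    linarith
  · intro i j
    have h1 : |A i j| ≤ ∑ j, |A i j| :=
      Finset.single_le_sum (f := fun j => |A i j|) (fun _ _ => abs_nonneg _) (Finset.mem_univ j)
    have h2 : ∑ j, |A i j| ≤ ∑ i, ∑ j, |A i j| :=
      Finset.single_le_sum (f := fun i => ∑ j, |A i j|)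
        (fun _ _ => Finset.sum_nonneg fun _ _ => abs_nonneg _) (Finset.mem_univ i)
    linarith

/-- Bound for a product. -/
lemma abs_mul_le {α β γ : Type} [Fintype β] {A : Matrix α β ℤ} {B : Matrix β γ ℤ} {a b : ℤ}
    (hA : ∀ i j, |A i j| ≤ a) (hB : ∀ i j, |B i j| ≤ b) (i : α) (j : γ) :
    |(A * B) i j| ≤ Fintype.card β * (a * b) := by
  rw [Matrix.mul_apply]
  calc |∑ k, A i k * B k j| ≤ ∑ k, |A i k * B k j| := Finset.abs_sum_le_sum_abs _ _
    _ ≤ ∑ _k : β, a * b := by
        refine Finset.sum_le_sum fun k _ => ?_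
        rw [abs_mul]
        exact mul_le_mul (hA i k) (hB k j) (abs_nonneg _) ((abs_nonneg _).trans (hA i k))
    _ = Fintype.card β * (a * b) := by rw [Finset.sum_const, Finset.card_univ, nsmul_eq_mul]

/-- Changing the left factor. -/
lemma bl {a a' n r : Type} [Fintype a] [Fintype a'] [Fintype n] [Fintype r]
    (U : Matrix a n ℤ) (U' : Matrix a' n ℤ) (X : Matrix n r ℤ) (α : Matrix r a ℤ)
    (α' : Matrix r a' ℤ) (h1 : NN (U * X)) (h2 : NN (U' * X)) (h3 : NN α) (h4 : NN α')
    (e : α * U = α' * U') : QQ (U * X * α) (U' * X * α') := by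
  have k1 : QQ (U * X * α) (α * (U * X)) := QQ.elem (U * X) α h1 h3
  have k2 : QQ (U' * X * α') (α' * (U' * X)) := QQ.elem (U' * X) α' h2 h4
  have e' : α * (U * X) = α' * (U' * X) := by
    rw [← Matrix.mul_assoc, e, Matrix.mul_assoc]
  rw [e'] at k1
  exact k1.trans k2.symm

/-- One small step between two lifts. -/
lemma step {a n : Type} [Fintype a] [Fintype n] [DecidableEq a] [DecidableEq n]
    (U : Matrix a n ℤ) (x : Matrix n Unit ℤ) (hx : ∀ i, 1 ≤ (U * x) i ()) (b : ℤ) (hb : 0 ≤ b) :
    ∃ K : ℤ, ∀ W W' : Matrix n a ℤ, W * U = W' * U → (∀ i j, |W' i j - W i j| ≤ b) →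
      GE K (U * W) → QQ (U * W) (U * W') := by
  obtain ⟨u, hu1, hu⟩ := exists_bd U
  obtain ⟨v, hv1, hv⟩ := exists_bd (U * x)
  set ν : ℤ := (Fintype.card n : ℤ) with hν
  have hν0 : 0 ≤ ν := by rw [hν]; exact Int.natCast_nonneg _
  set c : ℤ := u * (ν * b) with hc
  have hc0 : 0 ≤ c := mul_nonneg (by linarith) (mul_nonneg hν0 hb)
  refine ⟨b * (ν * (u + u * v)) + v * c, ?_⟩
  intro W W' hW hδ hK
  -- the difference
  set δ : Matrix n a ℤ := W' - W with hδdef
  have hδU : δ * U = 0 := by rw [hδdef, Matrix.sub_mul, hW, sub_self]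
  set Jn : Matrix Unit n ℤ := Matrix.of fun _ _ => 1 with hJn
  set E : Matrix n n ℤ := 1 + u • (x * Jn) with hE
  set B : Matrix n a ℤ := Matrix.of fun _ _ => b with hB
  set C : Matrix Unit a ℤ := Matrix.of fun _ _ => c with hC
  set W0 : Matrix n a ℤ := W - E * B - x * C with hW0
  have key : QQ (U * (Matrix.fromCols W0 (Matrix.fromCols E x)) *
      (Matrix.fromRows (1 : Matrix a a ℤ) (Matrix.fromRows B C)))
      (U * (Matrix.fromCols W0 (Matrix.fromCols E x)) *
      (Matrix.fromRows (1 : Matrix a a ℤ) (Matrix.fromRows (B + δ) (C - u • (Jn * δ))))) := by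
    refine bl U U _ _ _ ?_ ?_ ?_ ?_ ?_
    all_goals try
      rw [Matrix.mul_fromCols, Matrix.mul_fromCols]
      refine NN.fromCols ?_ (NN.fromCols ?_ ?_)
      · -- U W0
        intro i j
        have e1 : (U * W0) i j = (U * W) i j - (U * E * B) i j - (U * x * C) i j := by
          rw [hW0, Matrix.mul_sub, Matrix.mul_sub, Matrix.mul_assoc, Matrix.mul_assoc]
          rfl
        have e2 : (U * x * C) i j ≤ v * c := by
          rw [Matrix.mul_apply]
          simp only [Finset.univ_unique, Finset.sum_singleton, hC, Matrix.of_apply]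
          exact mul_le_mul_of_nonneg_right ((le_abs_self _).trans (hv i _)) hc0
        have e3 : (U * E * B) i j ≤ b * (ν * (u + u * v)) := by
          rw [Matrix.mul_apply]
          have : ∀ k ∈ Finset.univ, (U * E) i k * B k j ≤ (u + u * v) * b := by
            intro k _
            have : (U * E) i k ≤ u + u * v := by
              rw [hE, Matrix.mul_add, Matrix.mul_one, Matrix.mul_smul, ← Matrix.mul_assoc]
              have : (U * x * Jn) i k = (U * x) i () := by
                rw [Matrix.mul_apply]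
                simp [hJn]
              simp only [Matrix.add_apply, Matrix.smul_apply, this, smul_eq_mul]
              exact add_le_add ((le_abs_self _).trans (hu i k))
                (mul_le_mul_of_nonneg_left ((le_abs_self _).trans (hv i _)) (by linarith))
            exact mul_le_mul_of_nonneg_right this hb
          refine (Finset.sum_le_sum this).trans ?_
          rw [Finset.sum_const, Finset.card_univ, nsmul_eq_mul]
          rw [← hν]
          linarith [mul_comm b (ν * (u + u * v)), mul_assoc ν (u + u * v) b]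
        have e4 := hK i j
        rw [e1]
        linarith
      · -- U E
        intro i k
        rw [hE, Matrix.mul_add, Matrix.mul_one, Matrix.mul_smul, ← Matrix.mul_assoc]
        have : (U * x * Jn) i k = (U * x) i () := by
          rw [Matrix.mul_apply]
          simp [hJn]
        simp only [Matrix.add_apply, Matrix.smul_apply, this, smul_eq_mul]
        have h1 := (abs_le.mp (hu i k)).1
        have h2 := hx i
        nlinarith
      · intro i j
        exact (by norm_num : (0:ℤ) ≤ 1).trans (hx i)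
    · exact NN.one.fromRows (NN.fromRows (fun i j => hb) (fun i j => hc0))
    · refine NN.one.fromRows (NN.fromRows ?_ ?_)
      · intro i j
        have := (abs_le.mp (hδ i j)).1
        simp only [hB, hδdef, Matrix.add_apply, Matrix.sub_apply, Matrix.of_apply]
        linarith
      · intro i j
        have h1 : |(Jn * δ) i j| ≤ ν * b := by
          have := abs_mul_le (A := Jn) (B := δ) (a := 1) (b := b)
            (fun i j => by simp [hJn]) (fun i j => by simpa [hδdef] using hδ i j) i j
          rwa [one_mul] at this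
        have h2 := (abs_le.mp h1).2
        simp only [hC, Matrix.sub_apply, Matrix.smul_apply, Matrix.of_apply, smul_eq_mul]
        have : u * (Jn * δ) i j ≤ u * (ν * b) := mul_le_mul_of_nonneg_left h2 (by linarith)
        linarith
    · have g1 : (B + δ) * U = B * U := by rw [Matrix.add_mul, hδU, add_zero]
      have g2 : (C - u • (Jn * δ)) * U = C * U := by
        rw [Matrix.sub_mul, Matrix.smul_mul, Matrix.mul_assoc, hδU, Matrix.mul_zero, smul_zero,
          sub_zero]
      rw [Matrix.fromRows_mul, Matrix.fromRows_mul, Matrix.fromRows_mul, Matrix.fromRows_mul,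
        g1, g2]
  have f1 : Matrix.fromCols W0 (Matrix.fromCols E x) *
      (Matrix.fromRows (1 : Matrix a a ℤ) (Matrix.fromRows B C)) = W := by
    rw [Matrix.fromCols_mul_fromRows, Matrix.fromCols_mul_fromRows, Matrix.mul_one, hW0]; abel
  have f2 : Matrix.fromCols W0 (Matrix.fromCols E x) *
      (Matrix.fromRows (1 : Matrix a a ℤ) (Matrix.fromRows (B + δ) (C - u • (Jn * δ)))) = W' := by
    rw [Matrix.fromCols_mul_fromRows, Matrix.fromCols_mul_fromRows]
    have : E * δ = δ + u • (x * (Jn * δ)) := by
      rw [hE, Matrix.add_mul, Matrix.one_mul, Matrix.smul_mul, Matrix.mul_assoc]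
    have t2 : W' = W + δ := by rw [hδdef]; abel
    rw [Matrix.mul_one, hW0, Matrix.mul_add, this, Matrix.mul_sub x C, Matrix.mul_smul, t2]
    abel
  rw [Matrix.mul_assoc, Matrix.mul_assoc, f1, f2] at key
  exact key

end Pool.Agent.H81SSE
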