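import Pool.Agent.H81SSE.Path.A

/-!
# Joining two lifts of one matrix
-/

set_option autoImplicit false

namespace Pool.Agent.H81SSE

open Matrix

lemma abs_mul_le' {α β γ : Type} [Fintype β] {A : Matrix α β ℤ} {B : Matrix β γ ℤ} {a b : ℤ}
    (hA : ∀ i j, |A i j| ≤ a) (hB : ∀ i j, |B i j| ≤ b) :
    ∀ i j, |(A * B) i j| ≤ Fintype.card β * (a * b) := fun i j => abs_mul_le hA hB i j

lemma floor_bd {d T j : ℤ} (hT : 0 < T) (hd : |d| ≤ T) :
    |((j + 1) * d) / T - (j * d) / T| ≤ 2 := by
  have h1 := Int.emod_add_mul_ediv ((j + 1) * d) T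
  have h2 := Int.emod_add_mul_ediv (j * d) T
  have h3 := Int.emod_nonneg ((j + 1) * d) hT.ne'
  have h4 := Int.emod_nonneg (j * d) hT.ne'
  have h5 := Int.emod_lt_of_pos ((j + 1) * d) hT
  have h6 := Int.emod_lt_of_pos (j * d) hT
  set p := ((j + 1) * d) / T
  set q := (j * d) / T
  have h7 : T * (p - q) = d + (j * d) % T - ((j + 1) * d) % T := by
    linear_combination h1 - h2
  obtain ⟨h8, h9⟩ := abs_le.mp hd
  rw [abs_le]
  constructor
  · by_contra hcon
    push Not at hcon
    have : p - q ≤ -3 := by omega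
    nlinarith
  · by_contra hcon
    push Not at hcon
    have : 3 ≤ p - q := by omega
    nlinarith

/-- Two large lifts of one matrix are joined. -/
lemma connect {a n : Type} [Fintype a] [Fintype n] [DecidableEq a] [DecidableEq n]
    (U : Matrix a n ℤ) (Z : Matrix n a ℤ) (hZ : Z * U = 1) (x : Matrix n Unit ℤ)
    (hx : ∀ i, 1 ≤ (U * x) i ()) :
    ∃ K : ℤ, ∀ W W' : Matrix n a ℤ, W * U = W' * U → GE K (U * W) → GE K (U * W') →
      QQ (U * W) (U * W') := by
  set Pj : Matrix a a ℤ := 1 - U * Z with hPj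
  obtain ⟨z, hz1, hz⟩ := exists_bd Pj
  obtain ⟨u, hu1, hu⟩ := exists_bd U
  obtain ⟨K0, hK0⟩ := step U x hx (Fintype.card a * (2 * z)) (by positivity)
  set e : ℤ := Fintype.card n * (u * (Fintype.card a * (1 * z))) with he
  have he0 : 0 ≤ e := by positivity
  refine ⟨max (K0 + e) 0, ?_⟩
  intro W W' hW hK hK'
  have hK0' : 0 ≤ max (K0 + e) 0 := le_max_right _ _
  have hKe : K0 + e ≤ max (K0 + e) 0 := le_max_left _ _
  set δ : Matrix n a ℤ := W' - W with hδ
  have hδU : δ * U = 0 := by rw [hδ, Matrix.sub_mul, hW, sub_self]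
  obtain ⟨T, hT1, hT⟩ := exists_bd δ
  have hT0 : 0 < T := by linarith
  -- the intermediate lifts
  let D : ℕ → Matrix n a ℤ := fun j => Matrix.of fun i k => ((j : ℤ) * δ i k) / T
  let V : ℕ → Matrix n a ℤ := fun j => W + D j * Pj
  have hV0 : V 0 = W := by
    have : D 0 = 0 := by ext i k; simp [D]
    simp only [V, this, Matrix.zero_mul, add_zero]
  have hPjU : Pj * U = 0 := by
    rw [hPj, Matrix.sub_mul, Matrix.one_mul, Matrix.mul_assoc, hZ, Matrix.mul_one, sub_self]
  have hVU : ∀ j, V j * U = W * U := by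
    intro j
    simp only [V]
    rw [Matrix.add_mul, Matrix.mul_assoc, hPjU, Matrix.mul_zero, add_zero]
  have hδPj : δ * Pj = δ := by
    rw [hPj, Matrix.mul_sub, Matrix.mul_one, ← Matrix.mul_assoc, hδU, Matrix.zero_mul, sub_zero]
  have hVT : V T.toNat = W' := by
    have h1 : D T.toNat = δ := by
      ext i k
      simp only [D, Matrix.of_apply]
      rw [Int.toNat_of_nonneg hT0.le]
      exact Int.mul_ediv_cancel_left _ hT0.ne'
    simp only [V, h1, hδPj]
    rw [hδ]; abel
  have hlow : ∀ j : ℕ, (j : ℤ) ≤ T → GE K0 (U * V j) := by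
    intro j hj i k
    -- remainders
    set ρ : Matrix n a ℤ := Matrix.of fun i k => ((j : ℤ) * δ i k) % T with hρ
    have h1 : (T : ℤ) • D j = (j : ℤ) • δ - ρ := by
      ext i k
      simp only [D, hρ, Matrix.smul_apply, Matrix.sub_apply, Matrix.of_apply, smul_eq_mul]
      have := Int.emod_add_mul_ediv ((j : ℤ) * δ i k) T
      linarith
    have h2 : T • (U * V j) = (T - j) • (U * W) + (j : ℤ) • (U * W') - U * (ρ * Pj) := by
      have h3 : T • (U * V j) = T • (U * W) + U * ((T • D j) * Pj) := by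
        simp only [V]
        rw [Matrix.mul_add, smul_add, Matrix.smul_mul, Matrix.mul_smul]
      rw [h3, h1, Matrix.sub_mul, Matrix.smul_mul, hδPj, Matrix.mul_sub, Matrix.mul_smul]
      have h4 : U * δ = U * W' - U * W := by rw [hδ, Matrix.mul_sub]
      rw [h4, sub_smul, smul_sub]
      abel
    have h6 : ∀ i k, |(ρ * Pj) i k| ≤ Fintype.card a * (T * z) := by
      refine abs_mul_le' ?_ hz
      intro i k
      simp only [hρ, Matrix.of_apply]
      rw [abs_of_nonneg (Int.emod_nonneg _ hT0.ne')]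
      exact (Int.emod_lt_of_pos _ hT0).le
    have h7 : |(U * (ρ * Pj)) i k| ≤ Fintype.card n * (u * (Fintype.card a * (T * z))) :=
      abs_mul_le hu h6 i k
    have h8 : (T • (U * V j)) i k =
        ((T - j) • (U * W) + (j : ℤ) • (U * W') - U * (ρ * Pj)) i k := by rw [h2]
    simp only [Matrix.smul_apply, Matrix.add_apply, Matrix.sub_apply, smul_eq_mul] at h8
    have h9 := hK i k
    have h10 := hK' i k
    have h11 := (abs_le.mp h7).2
    set M : ℤ := max (K0 + e) 0
    have h12 : (Fintype.card n : ℤ) * (u * (Fintype.card a * (T * z))) = T * e := by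
      rw [he]; ring
    rw [h12] at h11
    have h13 : (T - (j : ℤ)) * M ≤ (T - (j : ℤ)) * (U * W) i k :=
      mul_le_mul_of_nonneg_left h9 (by linarith)
    have h14 : (j : ℤ) * M ≤ (j : ℤ) * (U * W') i k :=
      mul_le_mul_of_nonneg_left h10 (Int.natCast_nonneg _)
    have h15 : T * (M - e) ≤ T * (U * V j) i k := by
      rw [h8]; linarith
    have h16 : M - e ≤ (U * V j) i k := le_of_mul_le_mul_left h15 hT0
    linarith
  have hchain : ∀ j : ℕ, (j : ℤ) ≤ T → j ≠ 0 → QQ (U * V 0) (U * V j) := by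
    have hstep : ∀ j : ℕ, ((j : ℤ) + 1) ≤ T → QQ (U * V j) (U * V (j + 1)) := by
      intro j hj
      refine hK0 (V j) (V (j + 1)) (by rw [hVU, hVU]) ?_ (hlow j (by linarith))
      intro i k
      have h1 : V (j + 1) i k - V j i k = ((D (j + 1) - D j) * Pj) i k := by
        simp only [V]
        rw [Matrix.sub_mul]
        simp only [Matrix.add_apply, Matrix.sub_apply]
        ring
      rw [h1]
      refine abs_mul_le ?_ hz i k
      intro i k
      simp only [D, Matrix.sub_apply, Matrix.of_apply]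
      push_cast
      exact floor_bd hT0 (hT i k)
    intro j
    induction j with
    | zero => intro _ h; exact absurd rfl h
    | succ j ih =>
      intro hj _
      have hs := hstep j (by push_cast at hj; exact hj)
      rcases Nat.eq_zero_or_pos j with h0 | h0
      · subst h0; exact hs
      · exact (ih (by push_cast at hj; linarith) h0.ne').trans hs
  have hfin := hchain T.toNat (by rw [Int.toNat_of_nonneg hT0.le]) (by omega)
  rw [hV0, hVT] at hfin
  exact hfin

end Pool.Agent.H81SSE
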