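import Pool.Agent.H81SSE.Path.B

/-!
# Cones, and the change of cone
-/

set_option autoImplicit false
set_option linter.unusedSectionVars false

namespace Pool.Agent.H81SSE

open Matrix

variable {n : Type} [Fintype n] [DecidableEq n]

/-- The all-ones matrix. -/
def Jn (n : Type) : Matrix n n ℤ := Matrix.of fun _ _ => 1

/-- A bound for the entries of `D`. -/
def bdD (D : Matrix n n ℤ) : ℤ := 1 + ∑ i, ∑ j, |D i j|

lemma bdD_le (D : Matrix n n ℤ) (i j : n) : 1 + |D i j| ≤ bdD D := by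
  have h1 : |D i j| ≤ ∑ j, |D i j| :=
    Finset.single_le_sum (f := fun j => |D i j|) (fun _ _ => abs_nonneg _) (Finset.mem_univ j)
  have h2 : ∑ j, |D i j| ≤ ∑ i, ∑ j, |D i j| :=
    Finset.single_le_sum (f := fun i => ∑ j, |D i j|)
      (fun _ _ => Finset.sum_nonneg fun _ _ => abs_nonneg _) (Finset.mem_univ i)
  unfold bdD
  linarith

lemma bdD_one (D : Matrix n n ℤ) : 1 ≤ bdD D := by
  unfold bdD
  have : 0 ≤ ∑ i, ∑ j, |D i j| :=
    Finset.sum_nonneg fun i _ => Finset.sum_nonneg fun j _ => abs_nonneg _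
  linarith

/-- The functionals that belong to the cone spanned by the columns of `D`. -/
def UU (D : Matrix n n ℤ) : Matrix (n ⊕ (n ⊕ n)) n ℤ :=
  Matrix.fromRows D.adjugate
    (Matrix.fromRows (bdD D • (Jn n * D.adjugate) + 1) (bdD D • (Jn n * D.adjugate)))

/-- A left inverse of `UU D`. -/
def ZU (n : Type) [DecidableEq n] : Matrix n (n ⊕ (n ⊕ n)) ℤ :=
  Matrix.fromCols (0 : Matrix n n ℤ) (Matrix.fromCols (1 : Matrix n n ℤ) (-1 : Matrix n n ℤ))

lemma ZU_mul (D : Matrix n n ℤ) : ZU n * UU D = 1 := by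
  unfold ZU UU
  rw [Matrix.fromCols_mul_fromRows, Matrix.fromCols_mul_fromRows]
  rw [Matrix.zero_mul, Matrix.one_mul, Matrix.neg_mul, Matrix.one_mul]
  abel

/-- Nonnegative, and no zero row. -/
def RP {α β : Type} (M : Matrix α β ℤ) : Prop := NN M ∧ ∀ i, ∃ j, 1 ≤ M i j

lemma RP.mul_ge {α β γ : Type} [Fintype β] {M : Matrix α β ℤ} {Y : Matrix β γ ℤ} {K : ℤ}
    (hM : RP M) (hY : GE K Y) (hK : 0 ≤ K) : GE K (M * Y) := by
  intro i j
  rw [Matrix.mul_apply]
  obtain ⟨k, hk⟩ := hM.2 i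
  have h1 : M i k * Y k j ≤ ∑ l, M i l * Y l j :=
    Finset.single_le_sum (f := fun l => M i l * Y l j)
      (fun l _ => mul_nonneg (hM.1 i l) (hK.trans (hY l j))) (Finset.mem_univ k)
  have h2 : 1 * K ≤ M i k * Y k j :=
    mul_le_mul hk (hY k j) hK (by linarith)
  linarith

lemma UD_rp (D : Matrix n n ℤ) (hD : 0 < D.det) : RP (UU D * D) := by
  have e1 : D.adjugate * D = D.det • (1 : Matrix n n ℤ) := Matrix.adjugate_mul D
  have e2 : (bdD D • (Jn n * D.adjugate)) * D = (bdD D * D.det) • Jn n := by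
    rw [Matrix.smul_mul, Matrix.mul_assoc, e1, Matrix.mul_smul, Matrix.mul_one, smul_smul]
  have e3 : (bdD D • (Jn n * D.adjugate) + 1) * D = (bdD D * D.det) • Jn n + D := by
    rw [Matrix.add_mul, e2, Matrix.one_mul]
  have e : UU D * D = Matrix.fromRows (D.det • (1 : Matrix n n ℤ))
      (Matrix.fromRows ((bdD D * D.det) • Jn n + D) ((bdD D * D.det) • Jn n)) := by
    unfold UU
    rw [Matrix.fromRows_mul, Matrix.fromRows_mul, e1, e2, e3]
  have h1 : 1 ≤ bdD D * D.det := by
    have := bdD_one D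
    nlinarith
  have h3 : ∀ i j : n, 1 ≤ ((bdD D * D.det) • Jn n + D) i j := by
    intro i j
    have h4 := bdD_le D i j
    have h5 := neg_abs_le (D i j)
    have h6 : bdD D * 1 ≤ bdD D * D.det :=
      mul_le_mul_of_nonneg_left (by linarith) (by linarith [bdD_one D])
    simp only [Matrix.add_apply, Matrix.smul_apply, Jn, Matrix.of_apply, smul_eq_mul]
    linarith
  have h7 : ∀ i j : n, 1 ≤ ((bdD D * D.det) • Jn n : Matrix n n ℤ) i j := by
    intro i j
    simp only [Matrix.smul_apply, Jn, Matrix.of_apply, smul_eq_mul]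
    linarith
  rw [e]
  constructor
  · rintro (i | i | i) j
    · simp only [Matrix.fromRows_apply_inl, Matrix.smul_apply, smul_eq_mul]
      exact mul_nonneg hD.le (NN.one i j)
    · simp only [Matrix.fromRows_apply_inr, Matrix.fromRows_apply_inl]
      linarith [h3 i j]
    · simp only [Matrix.fromRows_apply_inr]
      linarith [h7 i j]
  · rintro (i | i | i)
    · refine ⟨i, ?_⟩
      simp only [Matrix.fromRows_apply_inl, Matrix.smul_apply, smul_eq_mul, Matrix.one_apply_eq]
      linarith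
    · refine ⟨i, ?_⟩
      simp only [Matrix.fromRows_apply_inr, Matrix.fromRows_apply_inl]
      exact h3 i i
    · refine ⟨i, ?_⟩
      simp only [Matrix.fromRows_apply_inr]
      exact h7 i i

lemma U_ge {r : Type} (D : Matrix n n ℤ) (hD : 0 < D.det) (X : Matrix n r ℤ)
    (h : GE 1 (D.adjugate * X)) : GE 1 (UU D * X) := by
  have e : D.det • (UU D * X) = (UU D * D) * (D.adjugate * X) := by
    rw [Matrix.mul_assoc, ← Matrix.mul_assoc D, Matrix.mul_adjugate, Matrix.smul_mul,
      Matrix.one_mul, Matrix.mul_smul]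
  have h1 : GE 1 (D.det • (UU D * X)) := by
    rw [e]
    exact (UD_rp D hD).mul_ge h (by norm_num)
  intro i j
  have h2 := h1 i j
  simp only [Matrix.smul_apply, smul_eq_mul] at h2
  by_contra hcon
  push Not at hcon
  have : (UU D * X) i j ≤ 0 := by omega
  have := mul_nonpos_of_nonneg_of_nonpos hD.le this
  linarith

/-- Rows that are large on the cone are combinations of the functionals with large
coefficients. -/
lemma ex (D : Matrix n n ℤ) (hD : 0 < D.det) (K : ℤ) :
    ∃ c : ℤ, ∀ {r : Type} [Fintype r] (Y : Matrix r n ℤ), GE c (Y * D) →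
      ∃ α : Matrix r (n ⊕ (n ⊕ n)) ℤ, GE K α ∧ α * UU D = Y := by
  obtain ⟨p, hp1, hp⟩ := exists_bd D.adjugate
  obtain ⟨z, hz1, hz⟩ := exists_bd (ZU n)
  obtain ⟨v, hv1, hv⟩ := exists_bd (UU D * D)
  set ν : ℤ := (Fintype.card n : ℤ) with hν
  set t : ℤ := ν * (ν * p * z) with ht
  have hν0 : 0 ≤ ν := by rw [hν]; exact Int.natCast_nonneg _
  have ht0 : 0 ≤ t := by positivity
  refine ⟨(Fintype.card (n ⊕ (n ⊕ n)) : ℤ) * (|K + t| * v), ?_⟩
  intro r _ Y hY
  set C : Matrix r (n ⊕ (n ⊕ n)) ℤ := Matrix.of fun _ _ => K + t with hC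
  set Y1 : Matrix r n ℤ := Y - C * UU D with hY1
  set a : Matrix r n ℤ := Matrix.of fun i j => (Y1 * D) i j / D.det with ha
  set ρ : Matrix r n ℤ := Matrix.of fun i j => (Y1 * D) i j % D.det with hρ
  have h1 : Y1 * D = D.det • a + ρ := by
    ext i j
    simp only [ha, hρ, Matrix.add_apply, Matrix.smul_apply, Matrix.of_apply, smul_eq_mul]
    have := Int.emod_add_mul_ediv ((Y1 * D) i j) D.det
    linarith
  have ha0 : NN a := by
    intro i j
    simp only [ha, Matrix.of_apply]
    refine Int.ediv_nonneg ?_ hD.le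
    have h2 : |(C * (UU D * D)) i j| ≤ (Fintype.card (n ⊕ (n ⊕ n)) : ℤ) * (|K + t| * v) :=
      abs_mul_le (fun i j => by simp [hC]) hv i j
    have h3 := (abs_le.mp h2).2
    have h4 := hY i j
    have h5 : (Y1 * D) i j = (Y * D) i j - (C * (UU D * D)) i j := by
      rw [hY1, Matrix.sub_mul, Matrix.mul_assoc]; rfl
    rw [h5]; linarith
  set w : Matrix r n ℤ := Y1 - a * D.adjugate with hw
  have h6 : D.det • w = ρ * D.adjugate := by
    have h7 : (Y1 * D) * D.adjugate = D.det • Y1 := by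
      rw [Matrix.mul_assoc, Matrix.mul_adjugate, Matrix.mul_smul, Matrix.mul_one]
    rw [h1, Matrix.add_mul, Matrix.smul_mul] at h7
    rw [hw, smul_sub, ← h7]
    abel
  have h8 : ∀ i j, |w i j| ≤ ν * p := by
    intro i j
    have h9 : |(ρ * D.adjugate) i j| ≤ ν * (D.det * p) := by
      refine abs_mul_le ?_ hp i j
      intro i j
      simp only [hρ, Matrix.of_apply]
      rw [abs_of_nonneg (Int.emod_nonneg _ hD.ne')]
      exact (Int.emod_lt_of_pos _ hD).le
    rw [← h6] at h9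
    simp only [Matrix.smul_apply, smul_eq_mul, abs_mul, abs_of_pos hD] at h9
    have h10 : D.det * |w i j| ≤ D.det * (ν * p) := by linarith [mul_left_comm D.det ν p]
    exact le_of_mul_le_mul_left h10 hD
  refine ⟨C + Matrix.fromCols a (0 : Matrix r (n ⊕ n) ℤ) + w * ZU n, ?_, ?_⟩
  · intro i j
    have h11 : |(w * ZU n) i j| ≤ ν * (ν * p * z) := abs_mul_le h8 hz i j
    have h12 := (abs_le.mp h11).1
    have h13 : 0 ≤ (Matrix.fromCols a (0 : Matrix r (n ⊕ n) ℤ)) i j :=
      (ha0.fromCols NN.zero) i j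
    have h14 : C i j = K + t := rfl
    simp only [Matrix.add_apply, h14]
    linarith
  · rw [Matrix.add_mul, Matrix.add_mul, Matrix.mul_assoc w, ZU_mul, Matrix.mul_one]
    have h15 : Matrix.fromCols a (0 : Matrix r (n ⊕ n) ℤ) * UU D = a * D.adjugate := by
      unfold UU
      rw [Matrix.fromCols_mul_fromRows, Matrix.zero_mul, add_zero]
    rw [h15, hw, hY1]
    abel

end Pool.Agent.H81SSE
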