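import Pool.Agent.H81SSE.Path.C

/-!
# Passing from one cone to another
-/

set_option autoImplicit false
set_option linter.unusedSectionVars false

namespace Pool.Agent.H81SSE

open Matrix

variable {n : Type} [Fintype n] [DecidableEq n]

/-- Two large lifts over one cone are joined. -/
lemma connectU (D : Matrix n n ℤ) (hD : 0 < D.det) :
    ∃ K : ℤ, ∀ W W' : Matrix n (n ⊕ (n ⊕ n)) ℤ, W * UU D = W' * UU D → GE K (UU D * W) →
      GE K (UU D * W') → QQ (UU D * W) (UU D * W') := by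
  refine connect (UU D) (ZU n) (ZU_mul D)
    (D * (Matrix.of fun _ _ => 1 : Matrix n Unit ℤ)) ?_
  intro i
  rw [← Matrix.mul_assoc]
  exact (UD_rp D hD).mul_ge (Y := (Matrix.of fun _ _ => 1 : Matrix n Unit ℤ)) (K := 1) (fun _ _ => le_refl _)
    (by norm_num) i ()

lemma JJ_apply {β : Type} (F : Matrix n β ℤ) (i : n) (j : β) : (Jn n * F) i j = ∑ k, F k j := by
  rw [Matrix.mul_apply]
  simp [Jn]

/-- Passing from one cone to another, both outside the cone of `E`. -/
lemma transfer [Nonempty n] (D1 D2 E y : Matrix n n ℤ) (h1 : 0 < D1.det) (h2 : 0 < D2.det)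
    (hE : 0 < E.det) (k1 : GE 1 (D1.adjugate * E)) (k2 : GE 1 (D2.adjugate * E))
    (y1 : GE 1 (y * D1)) (y2 : GE 1 (y * D2)) (K : ℤ) :
    ∃ C : ℤ, ∀ A : Matrix n n ℤ, GE C (E.adjugate * A * D1) → GE C (E.adjugate * A * D2) →
      ∃ W1 W2 : Matrix n (n ⊕ (n ⊕ n)) ℤ, W1 * UU D1 = A ∧ W2 * UU D2 = A ∧
        GE K (UU D1 * W1) ∧ GE K (UU D2 * W2) ∧ QQ (UU D1 * W1) (UU D2 * W2) := by
  obtain ⟨c1, hc1⟩ := ex D1 h1 (max K 0)
  obtain ⟨c2, hc2⟩ := ex D2 h2 (max K 0)
  obtain ⟨d1, hd11, hd1⟩ := exists_bd D1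
  obtain ⟨d2, hd21, hd2⟩ := exists_bd D2
  obtain ⟨u1, hu11, hu1⟩ := exists_bd (UU D1)
  obtain ⟨u2, hu21, hu2⟩ := exists_bd (UU D2)
  obtain ⟨y0, hy01, hy0⟩ := exists_bd y
  obtain ⟨q, hq1, hq⟩ := exists_bd E.adjugate
  set d : ℤ := max d1 d2 with hd
  have hd1' : ∀ i j, |D1 i j| ≤ d := fun i j => (hd1 i j).trans (le_max_left _ _)
  have hd2' : ∀ i j, |D2 i j| ≤ d := fun i j => (hd2 i j).trans (le_max_right _ _)
  have hd0 : 1 ≤ d := hd11.trans (le_max_left _ _)
  set N0 : ℤ := max u1 u2 with hN0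
  have hN01 : 1 ≤ N0 := hu11.trans (le_max_left _ _)
  set c : ℤ := max (max c1 c2) 0 with hc
  have hc0 : 0 ≤ c := le_max_right _ _
  have hcc1 : c1 ≤ c := (le_max_left _ _).trans (le_max_left _ _)
  have hcc2 : c2 ≤ c := (le_max_right _ _).trans (le_max_left _ _)
  set ν : ℤ := (Fintype.card n : ℤ) with hν
  have hν0 : 0 ≤ ν := by rw [hν]; exact Int.natCast_nonneg _
  set M : ℤ := E.det with hM
  set s : ℤ := c + ν * (M * d) with hs
  have hs0 : 0 ≤ s := by positivity
  set f : ℤ := M + s * y0 with hf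
  have hf0 : 0 ≤ f := by positivity
  set g : ℤ := ν * (ν * (1 * f) * d) with hg
  have hg0 : 0 ≤ g := by positivity
  set g' : ℤ := ν * (ν * (q * f) * d) with hg'
  have hg'0 : 0 ≤ g' := by positivity
  refine ⟨M * (c + N0 * g) + g', ?_⟩
  intro A hA1 hA2
  set A' : Matrix n n ℤ := Matrix.of fun i j => (A i j - s * y i j) / M with hA'
  set V : Matrix n n ℤ := Matrix.of fun i j => (A i j - s * y i j) % M with hV
  set F : Matrix n n ℤ := V + s • y with hF
  have eA : A = M • A' + F := by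
    ext i j
    simp only [hA', hF, hV, Matrix.add_apply, Matrix.smul_apply, Matrix.of_apply, smul_eq_mul]
    have := Int.emod_add_mul_ediv (A i j - s * y i j) M
    linarith
  have hV0 : ∀ i j, 0 ≤ V i j := fun i j => Int.emod_nonneg _ hE.ne'
  have hVM : ∀ i j, V i j ≤ M := fun i j => (Int.emod_lt_of_pos _ hE).le
  have hVabs : ∀ i j, |V i j| ≤ M := fun i j => by rw [abs_of_nonneg (hV0 i j)]; exact hVM i j
  have hFabs : ∀ i j, |F i j| ≤ f := by
    intro i j
    simp only [hF, Matrix.add_apply, Matrix.smul_apply, smul_eq_mul]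
    refine (abs_add_le _ _).trans ?_
    rw [abs_mul, abs_of_nonneg hs0]
    exact add_le_add (hVabs i j) (mul_le_mul_of_nonneg_left (hy0 i j) hs0)
  -- the rows of `F`
  have hFD : ∀ D : Matrix n n ℤ, (∀ i j, |D i j| ≤ d) → GE 1 (y * D) → GE c (F * D) := by
    intro D hDd hyD i j
    have e1 : (F * D) i j = (V * D) i j + s * (y * D) i j := by
      rw [hF, Matrix.add_mul, Matrix.smul_mul]; rfl
    have e2 : |(V * D) i j| ≤ ν * (M * d) := abs_mul_le hVabs hDd i j
    have e3 := (abs_le.mp e2).1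
    have e4 : s * 1 ≤ s * (y * D) i j := mul_le_mul_of_nonneg_left (hyD i j) hs0
    rw [e1]; linarith
  -- the rows of the first block
  set B : Matrix n n ℤ := E.adjugate * A' - N0 • (Jn n * F) with hB
  have hBD : ∀ D : Matrix n n ℤ, (∀ i j, |D i j| ≤ d) →
      GE (M * (c + N0 * g) + g') (E.adjugate * A * D) → GE c (B * D) := by
    intro D hDd hAD i j
    have e1 : (E.adjugate * A * D) i j = M * (E.adjugate * A' * D) i j +
        (E.adjugate * F * D) i j := by
      rw [eA, Matrix.mul_add, Matrix.add_mul, Matrix.mul_smul, Matrix.smul_mul]; rfl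
    have e2 : |(E.adjugate * F * D) i j| ≤ g' :=
      abs_mul_le (abs_mul_le' hq hFabs) hDd i j
    have e3 : |(Jn n * F * D) i j| ≤ g :=
      abs_mul_le (abs_mul_le' (fun i j => by simp [Jn]) hFabs) hDd i j
    have e4 : (B * D) i j = (E.adjugate * A' * D) i j - N0 * (Jn n * F * D) i j := by
      rw [hB, Matrix.sub_mul, Matrix.smul_mul]; rfl
    have e5 := hAD i j
    rw [e1] at e5
    have e6 := (abs_le.mp e2).2
    have e7 := (abs_le.mp e3).2
    have e8 : M * (c + N0 * g) ≤ M * (E.adjugate * A' * D) i j := by linarith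
    have e9 := le_of_mul_le_mul_left e8 hE
    have e10 : N0 * (Jn n * F * D) i j ≤ N0 * g := mul_le_mul_of_nonneg_left e7 (by linarith)
    rw [e4]; linarith
  set Y : Matrix (n ⊕ n) n ℤ := Matrix.fromRows B F with hY
  have hYD : ∀ D : Matrix n n ℤ, (∀ i j, |D i j| ≤ d) → GE 1 (y * D) →
      GE (M * (c + N0 * g) + g') (E.adjugate * A * D) → GE c (Y * D) := by
    intro D hDd hyD hAD
    rw [hY, Matrix.fromRows_mul]
    rintro (i | i) j
    · exact hBD D hDd hAD i j
    · exact hFD D hDd hyD i j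
  obtain ⟨α1, ha1, he1⟩ := hc1 Y ((hYD D1 hd1' y1 hA1).mono hcc1)
  obtain ⟨α2, ha2, he2⟩ := hc2 Y ((hYD D2 hd2' y2 hA2).mono hcc2)
  set X : Matrix n (n ⊕ n) ℤ := Matrix.fromCols E (N0 • (E * Jn n) + 1) with hX
  have hXY : X * Y = A := by
    rw [hX, hY, Matrix.fromCols_mul_fromRows, hB, Matrix.mul_sub, ← Matrix.mul_assoc,
      Matrix.mul_adjugate, Matrix.smul_mul, Matrix.one_mul, Matrix.add_mul, Matrix.one_mul,
      Matrix.mul_smul, Matrix.smul_mul, Matrix.mul_assoc, eA]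
    abel
  have hUX : ∀ D : Matrix n n ℤ, 0 < D.det → GE 1 (D.adjugate * E) →
      (∀ i j, |UU D i j| ≤ N0) → RP (UU D * X) := by
    intro D hD hDE hu
    have g1 : GE 1 (UU D * E) := U_ge D hD E hDE
    have g2 : NN (UU D * (N0 • (E * Jn n) + 1)) := by
      intro i j
      rw [Matrix.mul_add, Matrix.mul_one, Matrix.mul_smul, ← Matrix.mul_assoc]
      simp only [Matrix.add_apply, Matrix.smul_apply, smul_eq_mul]
      have g3 : 1 ≤ (UU D * E * Jn n) i j := by
        rw [Matrix.mul_apply]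
        obtain ⟨k⟩ := (inferInstance : Nonempty n)
        have g4 : (UU D * E) i k * Jn n k j ≤ ∑ l, (UU D * E) i l * Jn n l j :=
          Finset.single_le_sum (f := fun l => (UU D * E) i l * Jn n l j)
            (fun l _ => mul_nonneg ((by norm_num : (0:ℤ) ≤ 1).trans (g1 i l))
              (by simp [Jn])) (Finset.mem_univ k)
        have g5 := g1 i k
        simp only [Jn, Matrix.of_apply, mul_one] at g4 ⊢
        linarith
      have g6 := (abs_le.mp (hu i j)).1
      nlinarith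
    rw [hX, Matrix.mul_fromCols]
    refine ⟨(g1.nn (by norm_num)).fromCols g2, ?_⟩
    intro i
    obtain ⟨k⟩ := (inferInstance : Nonempty n)
    exact ⟨Sum.inl k, g1 i k⟩
  have r1 := hUX D1 h1 k1 (fun i j => (hu1 i j).trans (le_max_left _ _))
  have r2 := hUX D2 h2 k2 (fun i j => (hu2 i j).trans (le_max_right _ _))
  refine ⟨X * α1, X * α2, ?_, ?_, ?_, ?_, ?_⟩
  · rw [Matrix.mul_assoc, he1, hXY]
  · rw [Matrix.mul_assoc, he2, hXY]
  · rw [← Matrix.mul_assoc]
    exact (r1.mul_ge ha1 (le_max_right _ _)).mono (le_max_left _ _)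
  · rw [← Matrix.mul_assoc]
    exact (r2.mul_ge ha2 (le_max_right _ _)).mono (le_max_left _ _)
  · rw [← Matrix.mul_assoc, ← Matrix.mul_assoc]
    exact bl _ _ X α1 α2 r1.1 r2.1 (ha1.nn (le_max_right _ _)) (ha2.nn (le_max_right _ _))
      (by rw [he1, he2])

/-- The end of a chain of cones. -/
lemma endU (H : Matrix n n ℤ) (hH : H.det = 1) (K : ℤ) :
    ∃ C : ℤ, ∀ A : Matrix n n ℤ, GE C (H.adjugate * A * H) → NN (H.adjugate * A * H) ∧
      ∃ W : Matrix n (n ⊕ (n ⊕ n)) ℤ, W * UU H = A ∧ GE K (UU H * W) ∧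
        QQ (H.adjugate * A * H) (UU H * W) := by
  have hH0 : 0 < H.det := by rw [hH]; norm_num
  obtain ⟨c, hc⟩ := ex H hH0 (max K 0)
  refine ⟨max c 0, ?_⟩
  intro A hA
  have hNN : NN (H.adjugate * A * H) := hA.nn (le_max_right _ _)
  obtain ⟨α, ha, he⟩ := hc (H.adjugate * A) (hA.mono (le_max_left _ _))
  have p1 : H.adjugate * H = 1 := by rw [Matrix.adjugate_mul, hH, one_smul]
  have p2 : H * H.adjugate = 1 := by rw [Matrix.mul_adjugate, hH, one_smul]
  have hUH := UD_rp H hH0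
  refine ⟨hNN, H * α, ?_, ?_, ?_⟩
  · rw [Matrix.mul_assoc, he, ← Matrix.mul_assoc, p2, Matrix.one_mul]
  · rw [← Matrix.mul_assoc]
    exact (hUH.mul_ge ha (le_max_right _ _)).mono (le_max_left _ _)
  · have key := bl H.adjugate (UU H) H (H.adjugate * A * H) α (by rw [p1]; exact NN.one) hUH.1
      hNN (ha.nn (le_max_right _ _)) (by rw [he, Matrix.mul_assoc, p2, Matrix.mul_one])
    rw [p1, Matrix.one_mul, Matrix.mul_assoc (UU H)] at key
    exact key

end Pool.Agent.H81SSE
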