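import Pool.Agent.H81SSE.Path.D

/-!
# Integer matrices near the ray of a real matrix, and pairs of cones
-/

set_option autoImplicit false
set_option linter.unusedSectionVars false

namespace Pool.Agent.H81SSE

open Matrix

variable {n : Type} [Fintype n] [DecidableEq n]

/-- The real matrix with the entries of an integer matrix. -/
def cR {α β : Type} (A : Matrix α β ℤ) : Matrix α β ℝ := A.map (Int.cast : ℤ → ℝ)

lemma cR_mul {α β γ : Type} [Fintype β] (A : Matrix α β ℤ) (B : Matrix β γ ℤ) :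
    cR (A * B) = cR A * cR B := by
  unfold cR
  exact Matrix.map_mul (f := Int.castRingHom ℝ)

lemma cR_det (A : Matrix n n ℤ) : (cR A).det = (A.det : ℝ) := by
  unfold cR
  exact ((Int.castRingHom ℝ).map_det A).symm

lemma cR_adj (A : Matrix n n ℤ) : (cR A).adjugate = cR A.adjugate := by
  unfold cR
  exact ((Int.castRingHom ℝ).map_adjugate A).symm

/-- `A` is close to a large multiple of `A₀`. -/
def Near (A₀ : Matrix n n ℝ) (ε T : ℝ) (A : Matrix n n ℤ) : Prop :=
  ∃ τ : ℝ, T ≤ τ ∧ 0 ≤ τ ∧ ∀ i j, |(A i j : ℝ) - τ * A₀ i j| ≤ ε * τ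

/-- Holds for all integer matrices close to a large multiple of `A₀`. -/
def Ev (A₀ : Matrix n n ℝ) (p : Matrix n n ℤ → Prop) : Prop :=
  ∃ ε : ℝ, 0 < ε ∧ ∃ T : ℝ, ∀ A, Near A₀ ε T A → p A

lemma Near.mono {A₀ : Matrix n n ℝ} {ε ε' T T' : ℝ} {A : Matrix n n ℤ} (h : Near A₀ ε T A)
    (he : ε ≤ ε') (hT : T' ≤ T) : Near A₀ ε' T' A := by
  obtain ⟨τ, h1, h2, h3⟩ := h
  exact ⟨τ, hT.trans h1, h2, fun i j => (h3 i j).trans (mul_le_mul_of_nonneg_right he h2)⟩

lemma Ev.mono {A₀ : Matrix n n ℝ} {p q : Matrix n n ℤ → Prop} (h : Ev A₀ p)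
    (hpq : ∀ A, p A → q A) : Ev A₀ q := by
  obtain ⟨ε, h1, T, h2⟩ := h
  exact ⟨ε, h1, T, fun A hA => hpq A (h2 A hA)⟩

lemma Ev.and {A₀ : Matrix n n ℝ} {p q : Matrix n n ℤ → Prop} (h : Ev A₀ p) (h' : Ev A₀ q) :
    Ev A₀ (fun A => p A ∧ q A) := by
  obtain ⟨ε, h1, T, h2⟩ := h
  obtain ⟨ε', h1', T', h2'⟩ := h'
  exact ⟨min ε ε', lt_min h1 h1', max T T', fun A hA =>
    ⟨h2 A (hA.mono (min_le_left _ _) (le_max_left _ _)),
      h2' A (hA.mono (min_le_right _ _) (le_max_right _ _))⟩⟩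

lemma exists_lb {α : Type} [Finite α] (f : α → ℝ) (h : ∀ a, 0 < f a) :
    ∃ δ : ℝ, 0 < δ ∧ ∀ a, δ ≤ f a := by
  by_cases hne : Nonempty α
  · obtain ⟨a, ha⟩ := Finite.exists_min f
    exact ⟨f a, h a, ha⟩
  · exact ⟨1, one_pos, fun a => absurd ⟨a⟩ hne⟩

lemma Ev.big (A₀ : Matrix n n ℝ) (L R : Matrix n n ℤ)
    (h : ∀ i j, 0 < (cR L * A₀ * cR R) i j) (C : ℤ) : Ev A₀ (fun A => GE C (L * A * R)) := by
  obtain ⟨δ, hδ, hδ'⟩ := exists_lb (fun p : n × n => (cR L * A₀ * cR R) p.1 p.2)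
    (fun p => h p.1 p.2)
  obtain ⟨l, hl1, hl⟩ := exists_bd L
  obtain ⟨r, hr1, hr⟩ := exists_bd R
  set c : ℝ := (Fintype.card n : ℝ) * ((Fintype.card n : ℝ) * (l * r)) with hc
  have hl1' : (1 : ℝ) ≤ l := by exact_mod_cast hl1
  have hr1' : (1 : ℝ) ≤ r := by exact_mod_cast hr1
  have hc0 : 0 ≤ c := by positivity
  refine ⟨δ / (2 * (c + 1)), by positivity, 2 * |(C : ℝ)| / δ, ?_⟩
  rintro A ⟨τ, hτ, hτ0, hA⟩ i j
  set B : Matrix n n ℝ := cR A - τ • A₀ with hB
  have e1 : cR (L * A * R) = τ • (cR L * A₀ * cR R) + cR L * B * cR R := by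
    rw [cR_mul, cR_mul, hB, Matrix.mul_sub, Matrix.sub_mul, Matrix.mul_smul, Matrix.smul_mul]
    abel
  have e2 : |(cR L * B * cR R) i j| ≤ c * (δ / (2 * (c + 1)) * τ) := by
    have hη0 : 0 ≤ δ / (2 * (c + 1)) * τ := by positivity
    have h1 : ∀ i k, |(cR L * B) i k| ≤ (Fintype.card n : ℝ) * (l * (δ / (2 * (c + 1)) * τ)) := by
      intro i k
      rw [Matrix.mul_apply]
      calc |∑ m, cR L i m * B m k| ≤ ∑ m, |cR L i m * B m k| := Finset.abs_sum_le_sum_abs _ _
        _ ≤ ∑ _m : n, (l : ℝ) * (δ / (2 * (c + 1)) * τ) := by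
            refine Finset.sum_le_sum fun m _ => ?_
            rw [abs_mul]
            refine mul_le_mul ?_ ?_ (abs_nonneg _) (by linarith)
            · have := hl i m
              have h2 : |((L i m : ℤ) : ℝ)| ≤ l := by exact_mod_cast this
              exact h2
            · have := hA m k
              simpa [hB, cR] using this
        _ = _ := by rw [Finset.sum_const, Finset.card_univ, nsmul_eq_mul]
    rw [Matrix.mul_apply]
    calc |∑ m, (cR L * B) i m * cR R m j| ≤ ∑ m, |(cR L * B) i m * cR R m j| :=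
          Finset.abs_sum_le_sum_abs _ _
      _ ≤ ∑ _m : n, (Fintype.card n : ℝ) * (l * (δ / (2 * (c + 1)) * τ)) * r := by
          refine Finset.sum_le_sum fun m _ => ?_
          rw [abs_mul]
          refine mul_le_mul (h1 i m) ?_ (abs_nonneg _) (by positivity)
          have := hr m j
          have h2 : |((R m j : ℤ) : ℝ)| ≤ r := by exact_mod_cast this
          exact h2
      _ = c * (δ / (2 * (c + 1)) * τ) := by
          rw [Finset.sum_const, Finset.card_univ, nsmul_eq_mul, hc]; ring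
  have e3 : ((L * A * R) i j : ℝ) = τ * (cR L * A₀ * cR R) i j + (cR L * B * cR R) i j := by
    have := congrFun (congrFun e1 i) j
    simpa [cR] using this
  have e4 := (abs_le.mp e2).1
  have e5 := hδ' (i, j)
  have e6 : c * (δ / (2 * (c + 1)) * τ) ≤ δ / 2 * τ := by
    have : c * (δ / (2 * (c + 1)) * τ) = (c / (c + 1)) * (δ / 2 * τ) := by
      field_simp
    rw [this]
    have h1 : c / (c + 1) ≤ 1 := by
      rw [div_le_one (by linarith)]; linarith
    have h2 : 0 ≤ δ / 2 * τ := by positivity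
    calc c / (c + 1) * (δ / 2 * τ) ≤ 1 * (δ / 2 * τ) := mul_le_mul_of_nonneg_right h1 h2
      _ = _ := one_mul _
  have e7 : τ * δ ≤ τ * (cR L * A₀ * cR R) i j := mul_le_mul_of_nonneg_left e5 hτ0
  have e8 : |(C : ℝ)| ≤ δ / 2 * τ := by
    rw [div_le_iff₀ hδ] at hτ
    linarith
  have e9 : (C : ℝ) ≤ ((L * A * R) i j : ℝ) := by
    rw [e3]
    have := le_abs_self (C : ℝ)
    linarith
  exact_mod_cast e9

/-- The cone of `G` lies well inside the cone of `D`, and `A₀` maps the latter well inside the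
former. -/
def Good (A₀ D G : Matrix n n ℝ) : Prop :=
  0 < D.det ∧ 0 < G.det ∧ (∀ i j, 0 < (D.adjugate * G) i j) ∧
    ∀ i j, 0 < (G.adjugate * A₀ * D) i j

lemma isOpen_good_right (A₀ D : Matrix n n ℝ) : IsOpen {G | Good A₀ D G} := by
  unfold Good
  simp only [Set.ofPred_and, Set.ofPred_forall]
  refine IsOpen.inter isOpen_const (IsOpen.inter ?_ (IsOpen.inter ?_ ?_))
  · exact isOpen_lt continuous_const (continuous_id.matrix_det)
  · refine isOpen_iInter_of_finite fun i => isOpen_iInter_of_finite fun j => ?_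
    exact isOpen_lt continuous_const
      ((continuous_const.matrix_mul continuous_id).matrix_elem i j)
  · refine isOpen_iInter_of_finite fun i => isOpen_iInter_of_finite fun j => ?_
    exact isOpen_lt continuous_const
      (((continuous_id.matrix_adjugate.matrix_mul continuous_const).matrix_mul
        continuous_const).matrix_elem i j)

lemma isOpen_good_left (A₀ G : Matrix n n ℝ) : IsOpen {D | Good A₀ D G} := by
  unfold Good
  simp only [Set.ofPred_and, Set.ofPred_forall]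
  refine IsOpen.inter ?_ (IsOpen.inter isOpen_const (IsOpen.inter ?_ ?_))
  · exact isOpen_lt continuous_const (continuous_id.matrix_det)
  · refine isOpen_iInter_of_finite fun i => isOpen_iInter_of_finite fun j => ?_
    exact isOpen_lt continuous_const
      ((continuous_id.matrix_adjugate.matrix_mul continuous_const).matrix_elem i j)
  · refine isOpen_iInter_of_finite fun i => isOpen_iInter_of_finite fun j => ?_
    exact isOpen_lt continuous_const
      ((continuous_const.matrix_mul continuous_id).matrix_elem i j)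

lemma Good.smul_right {A₀ D G : Matrix n n ℝ} (h : Good A₀ D G) {t : ℝ} (ht : 0 < t) :
    Good A₀ D (t • G) := by
  obtain ⟨h1, h2, h3, h4⟩ := h
  refine ⟨h1, ?_, ?_, ?_⟩
  · rw [Matrix.det_smul]; positivity
  · intro i j
    rw [Matrix.mul_smul, Matrix.smul_apply, smul_eq_mul]
    exact mul_pos ht (h3 i j)
  · intro i j
    rw [Matrix.adjugate_smul, Matrix.smul_mul, Matrix.smul_mul, Matrix.smul_apply, smul_eq_mul]
    exact mul_pos (pow_pos ht _) (h4 i j)

lemma Good.smul_left {A₀ D G : Matrix n n ℝ} (h : Good A₀ D G) {t : ℝ} (ht : 0 < t) :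
    Good A₀ (t • D) G := by
  obtain ⟨h1, h2, h3, h4⟩ := h
  refine ⟨?_, h2, ?_, ?_⟩
  · rw [Matrix.det_smul]; positivity
  · intro i j
    rw [Matrix.adjugate_smul, Matrix.smul_mul, Matrix.smul_apply, smul_eq_mul]
    exact mul_pos (pow_pos ht _) (h3 i j)
  · intro i j
    rw [Matrix.mul_smul, Matrix.smul_apply, smul_eq_mul]
    exact mul_pos ht (h4 i j)

lemma tendsto_floor_mul_div (x : ℝ) :
    Filter.Tendsto (fun k : ℕ => ((⌊(k : ℝ) * x⌋ : ℤ) : ℝ) / k) Filter.atTop (nhds x) := by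
  have h1 : Filter.Tendsto (fun k : ℕ => x - 1 / (k : ℝ)) Filter.atTop (nhds x) := by
    have := (tendsto_const_nhds (x := x)).sub tendsto_one_div_atTop_nhds_zero_nat
    simpa using this
  refine tendsto_of_tendsto_of_tendsto_of_le_of_le' h1 tendsto_const_nhds ?_ ?_
  · filter_upwards [Filter.eventually_gt_atTop 0] with k hk
    have hk' : (0 : ℝ) < k := by exact_mod_cast hk
    have h2 := Int.lt_floor_add_one ((k : ℝ) * x)
    rw [le_div_iff₀ hk', sub_mul, one_div, inv_mul_cancel₀ hk'.ne']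
    linarith
  · filter_upwards [Filter.eventually_gt_atTop 0] with k hk
    have hk' : (0 : ℝ) < k := by exact_mod_cast hk
    have h2 := Int.floor_le ((k : ℝ) * x)
    rw [div_le_iff₀ hk']
    linarith

/-- An open set of matrices that is closed under positive scalars contains integer matrices. -/
lemma exists_int (O : Set (Matrix n n ℝ)) (hO : IsOpen O)
    (hs : ∀ M ∈ O, ∀ t : ℝ, 0 < t → t • M ∈ O) (M : Matrix n n ℝ) (hM : M ∈ O) :
    ∃ D : Matrix n n ℤ, cR D ∈ O := by
  have h1 : Filter.Tendsto (fun k : ℕ => (Matrix.of fun i j =>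
      ((⌊(k : ℝ) * M i j⌋ : ℤ) : ℝ) / k : Matrix n n ℝ)) Filter.atTop (nhds M) := by
    exact tendsto_pi_nhds.mpr fun i => tendsto_pi_nhds.mpr fun j =>
      tendsto_floor_mul_div (M i j)
  have h2 := h1.eventually (hO.mem_nhds hM)
  obtain ⟨k, hk, hk0⟩ := (h2.and (Filter.eventually_gt_atTop 0)).exists
  have hk' : (0 : ℝ) < k := by exact_mod_cast hk0
  refine ⟨Matrix.of fun i j => ⌊(k : ℝ) * M i j⌋, ?_⟩
  have h3 := hs _ hk k hk'
  have h4 : (k : ℝ) • (Matrix.of fun i j => ((⌊(k : ℝ) * M i j⌋ : ℤ) : ℝ) / k : Matrix n n ℝ) =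
      cR (Matrix.of fun i j => ⌊(k : ℝ) * M i j⌋) := by
    ext i j
    simp only [cR, Matrix.smul_apply, Matrix.of_apply, Matrix.map_apply, smul_eq_mul]
    field_simp
  rw [← h4]
  exact h3

end Pool.Agent.H81SSE
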