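import Pool.Agent.H81SSE.Path.E

/-!
# The path theorem
-/

set_option autoImplicit false
set_option linter.unusedSectionVars false

namespace Pool.Agent.H81SSE

open Matrix

variable {n : Type} [Fintype n] [DecidableEq n]

/-- The all-ones real matrix. -/
def JR (n : Type) : Matrix n n ℝ := Matrix.of fun _ _ => 1

lemma JR_mul : JR n * JR n = (Fintype.card n : ℝ) • JR n := by
  ext i j
  rw [Matrix.mul_apply]
  simp [JR]

lemma exists_small (S : Set ℝ) (hS : IsOpen S) (h0 : (0 : ℝ) ∈ S) (b : ℝ) (hb : 0 < b) :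
    ∃ η : ℝ, 0 < η ∧ η < b ∧ η ∈ S := by
  obtain ⟨r, hr, hr'⟩ := Metric.isOpen_iff.mp hS 0 h0
  refine ⟨min (r / 2) (b / 2), by positivity, ?_, hr' ?_⟩
  · have := min_le_right (r / 2) (b / 2)
    linarith
  · rw [Metric.mem_ball, Real.dist_eq, sub_zero, abs_of_pos (by positivity)]
    have := min_le_left (r / 2) (b / 2)
    linarith

lemma one_add_smul_JR_pos {μ : ℝ} (hμ : 0 < μ) (i j : n) : 0 < (1 + μ • JR n) i j := by
  have h1 : (0 : ℝ) ≤ (1 : Matrix n n ℝ) i j := by
    by_cases h : i = j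
    · subst h; simp
    · simp [h]
  simp only [Matrix.add_apply, Matrix.smul_apply, JR, Matrix.of_apply, smul_eq_mul]
  linarith

/-- A slightly larger cone. -/
lemma exists_good (A₀ G : Matrix n n ℝ) (hG : 0 < G.det)
    (h : ∀ i j, 0 < (G.adjugate * A₀ * G) i j) : ∃ D : Matrix n n ℤ, Good A₀ (cR D) G := by
  have hc : Continuous fun η : ℝ => (1 - η • JR n : Matrix n n ℝ) :=
    continuous_const.sub (continuous_id.smul continuous_const)
  have hS : IsOpen {η : ℝ | 0 < (1 - η • JR n : Matrix n n ℝ).det ∧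
      ∀ i j, 0 < (G.adjugate * A₀ * (G * (1 - η • JR n))) i j} := by
    simp only [Set.ofPred_and, Set.ofPred_forall]
    refine IsOpen.inter (isOpen_lt continuous_const hc.matrix_det) ?_
    refine isOpen_iInter_of_finite fun i => isOpen_iInter_of_finite fun j => ?_
    exact isOpen_lt continuous_const
      ((continuous_const.matrix_mul (continuous_const.matrix_mul hc)).matrix_elem i j)
  obtain ⟨η, hη0, hη1, hη⟩ := exists_small _ hS (by
    refine ⟨by simp, ?_⟩
    intro i j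
    simpa using h i j) (1 / ((Fintype.card n : ℝ) + 1)) (by positivity)
  obtain ⟨hT, hη2⟩ := hη
  have hν : (0 : ℝ) ≤ Fintype.card n := Nat.cast_nonneg _
  have hden : 0 < 1 - η * Fintype.card n := by
    rw [lt_div_iff₀ (by positivity)] at hη1
    linarith
  set μ : ℝ := η / (1 - η * Fintype.card n) with hμ
  have hμ0 : 0 < μ := by positivity
  have hinv : (1 - η • JR n : Matrix n n ℝ) * (1 + μ • JR n) = 1 := by
    rw [Matrix.sub_mul, Matrix.mul_add, Matrix.mul_add, Matrix.mul_one, Matrix.one_mul,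
      Matrix.mul_one, Matrix.smul_mul, Matrix.mul_smul, JR_mul, smul_smul, smul_smul]
    have e : μ - η - η * (μ * (Fintype.card n : ℝ)) = 0 := by
      rw [hμ]; field_simp; ring
    have e2 : (1 : Matrix n n ℝ) + μ • JR n - (η • JR n + (η * (μ * (Fintype.card n : ℝ))) • JR n) =
        1 + (μ - η - η * (μ * (Fintype.card n : ℝ))) • JR n := by
      rw [sub_smul, sub_smul]; abel
    rw [← mul_assoc] at e2 e
    rw [e2, e, zero_smul, add_zero]
  have hadj : (1 - η • JR n : Matrix n n ℝ).adjugate =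
      (1 - η • JR n : Matrix n n ℝ).det • (1 + μ • JR n) := by
    have h1 : (1 - η • JR n : Matrix n n ℝ).adjugate * ((1 - η • JR n) * (1 + μ • JR n)) =
        (1 - η • JR n : Matrix n n ℝ).det • (1 + μ • JR n) := by
      rw [← Matrix.mul_assoc, Matrix.adjugate_mul, Matrix.smul_mul, Matrix.one_mul]
    rw [hinv, Matrix.mul_one] at h1
    exact h1
  have hgood : Good A₀ (G * (1 - η • JR n)) G := by
    refine ⟨?_, hG, ?_, hη2⟩
    · rw [Matrix.det_mul]; exact mul_pos hG hT
    · intro i j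
      rw [Matrix.adjugate_mul_distrib, Matrix.mul_assoc, Matrix.adjugate_mul, Matrix.mul_smul,
        Matrix.mul_one, hadj]
      simp only [Matrix.smul_apply, smul_eq_mul]
      exact mul_pos hG (mul_pos hT (one_add_smul_JR_pos hμ0 i j))
  obtain ⟨D, hD⟩ := exists_int {D | Good A₀ D G} (isOpen_good_left A₀ G)
    (fun M hM t ht => Good.smul_left hM ht) _ hgood
  exact ⟨D, hD⟩

/-- A slightly smaller cone. -/
lemma exists_good_inner (A₀ H : Matrix n n ℝ) (hH : 0 < H.det)
    (h : ∀ i j, 0 < (H.adjugate * A₀ * H) i j) (O : Set (Matrix n n ℝ)) (hO : IsOpen O)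
    (hHO : H ∈ O) : ∃ G ∈ O, Good A₀ H G := by
  have hc : Continuous fun μ : ℝ => (H * (1 + μ • JR n) : Matrix n n ℝ) :=
    continuous_const.matrix_mul (continuous_const.add (continuous_id.smul continuous_const))
  have hS : IsOpen {μ : ℝ | (H * (1 + μ • JR n) : Matrix n n ℝ) ∈ O ∧
      0 < (H * (1 + μ • JR n) : Matrix n n ℝ).det ∧
      ∀ i j, 0 < ((H * (1 + μ • JR n)).adjugate * A₀ * H) i j} := by
    simp only [Set.ofPred_and, Set.ofPred_forall]
    refine IsOpen.inter (hO.preimage hc) (IsOpen.inter (isOpen_lt continuous_const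
      hc.matrix_det) ?_)
    refine isOpen_iInter_of_finite fun i => isOpen_iInter_of_finite fun j => ?_
    exact isOpen_lt continuous_const
      (((hc.matrix_adjugate.matrix_mul continuous_const).matrix_mul
        continuous_const).matrix_elem i j)
  obtain ⟨μ, hμ0, -, hμ1, hμ2, hμ3⟩ := exists_small _ hS (by
    refine ⟨by simpa using hHO, by simpa using hH, ?_⟩
    intro i j
    simpa using h i j) 1 one_pos
  refine ⟨_, hμ1, hH, hμ2, ?_, hμ3⟩
  intro i j
  rw [← Matrix.mul_assoc, Matrix.adjugate_mul, Matrix.smul_mul, Matrix.one_mul]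
  simp only [Matrix.smul_apply, smul_eq_mul]
  exact mul_pos hH (one_add_smul_JR_pos hμ0 i j)

/-- Two cones are linked at `A₀`. -/
def Rel (A₀ : Matrix n n ℝ) (D D' : Matrix n n ℤ) : Prop :=
  ∀ K : ℤ, Ev A₀ (fun A => ∃ W W' : Matrix n (n ⊕ (n ⊕ n)) ℤ, W * UU D = A ∧ W' * UU D' = A ∧
    GE K (UU D * W) ∧ GE K (UU D' * W') ∧ QQ (UU D * W) (UU D' * W'))

lemma Rel.symm {A₀ : Matrix n n ℝ} {D D' : Matrix n n ℤ} (h : Rel A₀ D D') : Rel A₀ D' D := by
  intro K
  refine (h K).mono ?_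
  rintro A ⟨W, W', h1, h2, h3, h4, h5⟩
  exact ⟨W', W, h2, h1, h4, h3, h5.symm⟩

lemma Rel.trans {A₀ : Matrix n n ℝ} {D D' D'' : Matrix n n ℤ} (h : Rel A₀ D D')
    (h' : Rel A₀ D' D'') (hD : 0 < D'.det) : Rel A₀ D D'' := by
  intro K
  obtain ⟨K1, hK1⟩ := connectU D' hD
  refine ((h (max K K1)).and (h' (max K K1))).mono ?_
  rintro A ⟨⟨W, W1, h1, h2, h3, h4, h5⟩, ⟨W2, W', k1, k2, k3, k4, k5⟩⟩
  refine ⟨W, W', h1, k2, h3.mono (le_max_left _ _), k4.mono (le_max_left _ _), ?_⟩
  exact h5.trans ((hK1 W1 W2 (by rw [h2, k1]) (h4.mono (le_max_right _ _))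
    (k3.mono (le_max_right _ _))).trans k5)

lemma ge_one_of_pos {α β : Type} {X : Matrix α β ℤ} (h : ∀ i j, 0 < cR X i j) : GE 1 X := by
  intro i j
  have h1 := h i j
  simp only [cR, Matrix.map_apply] at h1
  have h2 : 0 < X i j := by exact_mod_cast h1
  omega

lemma rel_of_good [Nonempty n] (A₀ G : Matrix n n ℝ) (D1 D2 : Matrix n n ℤ)
    (h1 : Good A₀ (cR D1) G) (h2 : Good A₀ (cR D2) G) : Rel A₀ D1 D2 := by
  intro K
  obtain ⟨E, hE1, hE2⟩ := exists_int ({G | Good A₀ (cR D1) G} ∩ {G | Good A₀ (cR D2) G})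
    ((isOpen_good_right _ _).inter (isOpen_good_right _ _))
    (fun M hM t ht => ⟨Good.smul_right hM.1 ht, Good.smul_right hM.2 ht⟩) G ⟨h1, h2⟩
  obtain ⟨a1, b1, c1, d1⟩ := hE1
  obtain ⟨a2, b2, c2, d2⟩ := hE2
  have hD1 : 0 < D1.det := by rw [cR_det] at a1; exact_mod_cast a1
  have hD2 : 0 < D2.det := by rw [cR_det] at a2; exact_mod_cast a2
  have hE : 0 < E.det := by rw [cR_det] at b1; exact_mod_cast b1
  have k1 : GE 1 (D1.adjugate * E) := by
    apply ge_one_of_pos
    rw [cR_mul, ← cR_adj]; exact c1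
  have k2 : GE 1 (D2.adjugate * E) := by
    apply ge_one_of_pos
    rw [cR_mul, ← cR_adj]; exact c2
  -- an integer matrix of functionals
  obtain ⟨A1, hA1, hA2⟩ := exists_int
    ({A : Matrix n n ℝ | ∀ i j : n, 0 < ((cR E).adjugate * A * cR D1) i j} ∩
      {A : Matrix n n ℝ | ∀ i j : n, 0 < ((cR E).adjugate * A * cR D2) i j})
    (by
      simp only [Set.ofPred_forall]
      refine IsOpen.inter ?_ ?_
      all_goals
        refine isOpen_iInter_of_finite fun i => isOpen_iInter_of_finite fun j => ?_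
        exact isOpen_lt continuous_const
          (((continuous_const.matrix_mul continuous_id).matrix_mul
            continuous_const).matrix_elem i j))
    (by
      rintro M ⟨hM1, hM2⟩ t ht
      constructor
      · intro i j
        rw [Matrix.mul_smul, Matrix.smul_mul, Matrix.smul_apply, smul_eq_mul]
        exact mul_pos ht (hM1 i j)
      · intro i j
        rw [Matrix.mul_smul, Matrix.smul_mul, Matrix.smul_apply, smul_eq_mul]
        exact mul_pos ht (hM2 i j)) A₀ ⟨d1, d2⟩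
  have y1 : GE 1 (E.adjugate * A1 * D1) := by
    apply ge_one_of_pos
    rw [cR_mul, cR_mul, ← cR_adj]; exact hA1
  have y2 : GE 1 (E.adjugate * A1 * D2) := by
    apply ge_one_of_pos
    rw [cR_mul, cR_mul, ← cR_adj]; exact hA2
  obtain ⟨C, hC⟩ := transfer D1 D2 E (E.adjugate * A1) hD1 hD2 hE k1 k2 y1 y2 K
  refine ((Ev.big A₀ E.adjugate D1 ?_ C).and (Ev.big A₀ E.adjugate D2 ?_ C)).mono ?_
  · rw [← cR_adj]; exact d1
  · rw [← cR_adj]; exact d2
  · rintro A ⟨g1, g2⟩
    exact hC A g1 g2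

lemma cR_one : cR (1 : Matrix n n ℤ) = 1 := by
  ext i j
  by_cases h : i = j
  · subst h; simp [cR]
  · simp [cR, h]

/-- The path theorem. -/
theorem path_main [Nonempty n] (A₀ : Matrix n n ℝ) (γ : unitInterval → Matrix n n ℝ)
    (hγ : Continuous γ) (G : Matrix n n ℤ) (h0 : γ 0 = 1) (h1 : γ 1 = cR G)
    (hdet : ∀ t, 0 < (γ t).det) (hpos : ∀ t i j, 0 < ((γ t).adjugate * A₀ * γ t) i j)
    (hG : G.det = 1) :
    Ev A₀ (fun A => NN A ∧ NN (G.adjugate * A * G) ∧ QQ A (G.adjugate * A * G)) := by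
  -- all cones along the path are linked to the first
  have hS : {t : unitInterval | ∀ D : Matrix n n ℤ, Good A₀ (cR D) (γ t) → Rel A₀ 1 D} =
      Set.univ := by
    refine IsClopen.eq_univ ⟨?_, ?_⟩ ?_
    · rw [← isOpen_compl_iff, isOpen_iff_mem_nhds]
      intro t ht
      simp only [Set.mem_compl_iff, Set.mem_ofPred_eq, not_forall] at ht
      obtain ⟨D, hD, hD'⟩ := ht
      have := ((isOpen_good_right A₀ (cR D)).preimage hγ).mem_nhds hD
      filter_upwards [this] with s hs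
      simp only [Set.mem_compl_iff, Set.mem_ofPred_eq, not_forall]
      exact ⟨D, hs, hD'⟩
    · rw [isOpen_iff_mem_nhds]
      intro t ht
      obtain ⟨D, hD⟩ := exists_good A₀ (γ t) (hdet t) (hpos t)
      have hrel := ht D hD
      have hDdet : 0 < D.det := by
        have := hD.1
        rw [cR_det] at this; exact_mod_cast this
      have := ((isOpen_good_right A₀ (cR D)).preimage hγ).mem_nhds hD
      filter_upwards [this] with s hs
      intro D' hD'
      exact hrel.trans (rel_of_good A₀ (γ s) D D' hs hD') hDdet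
    · refine ⟨0, ?_⟩
      intro D hD
      rw [h0] at hD
      have hpos0 := hpos 0
      rw [h0] at hpos0
      obtain ⟨X, hX1, hX2⟩ := exists_good_inner A₀ 1 (by simp) hpos0
        {G | Good A₀ (cR D) G} (isOpen_good_right _ _) hD
      exact rel_of_good A₀ X 1 D (by rw [cR_one]; exact hX2) hX1
  have hend : Rel A₀ 1 G := by
    obtain ⟨D, hD⟩ := exists_good A₀ (γ 1) (hdet 1) (hpos 1)
    have hrel : Rel A₀ 1 D := by
      have : (1 : unitInterval) ∈ {t : unitInterval | ∀ D : Matrix n n ℤ,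
          Good A₀ (cR D) (γ t) → Rel A₀ 1 D} := by rw [hS]; trivial
      exact this D hD
    have hDdet : 0 < D.det := by
      have := hD.1
      rw [cR_det] at this; exact_mod_cast this
    obtain ⟨X, hX1, hX2⟩ := exists_good_inner A₀ (γ 1) (hdet 1) (hpos 1)
      {G | Good A₀ (cR D) G} (isOpen_good_right _ _) hD
    rw [h1] at hX2
    exact hrel.trans (rel_of_good A₀ X D G hX1 hX2) hDdet
  have hdet1 : (1 : Matrix n n ℤ).det = 1 := Matrix.det_one
  obtain ⟨K1, hK1⟩ := connectU (1 : Matrix n n ℤ) (by rw [hdet1]; norm_num)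
  obtain ⟨K2, hK2⟩ := connectU G (by rw [hG]; norm_num)
  obtain ⟨C1, hC1⟩ := endU (1 : Matrix n n ℤ) hdet1 K1
  obtain ⟨C2, hC2⟩ := endU G hG K2
  have b1 : Ev A₀ (fun A => GE C1 ((1 : Matrix n n ℤ).adjugate * A * 1)) := by
    refine Ev.big A₀ _ _ ?_ C1
    rw [← cR_adj, cR_one]
    have := hpos 0
    rw [h0] at this
    exact this
  have b2 : Ev A₀ (fun A => GE C2 (G.adjugate * A * G)) := by
    refine Ev.big A₀ _ _ ?_ C2
    rw [← cR_adj]
    have := hpos 1
    rw [h1] at this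
    exact this
  refine ((b1.and b2).and (hend (max K1 K2))).mono ?_
  rintro A ⟨⟨g1, g2⟩, W, W', w1, w2, w3, w4, w5⟩
  obtain ⟨n1, V, v1, v2, v3⟩ := hC1 A g1
  obtain ⟨n2, V', v1', v2', v3'⟩ := hC2 A g2
  rw [Matrix.adjugate_one, Matrix.one_mul, Matrix.mul_one] at n1 v3
  refine ⟨n1, n2, ?_⟩
  refine v3.trans ((hK1 V W (by rw [v1, w1]) v2 (w3.mono (le_max_left _ _))).trans
    (w5.trans ((hK2 W' V' (by rw [w2, v1']) (w4.mono (le_max_right _ _)) v2').trans v3'.symm)))

end Pool.Agent.H81SSE
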