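import Pool.Agent.H81SSE.Path.F

/-!
# Change of coordinates, and uniformity over compact sets of directions
-/

set_option autoImplicit false
set_option linter.unusedSectionVars false

namespace Pool.Agent.H81SSE

open Matrix

variable {n : Type} [Fintype n] [DecidableEq n]

/-- Passing from one cone to another, in other coordinates. -/
lemma transferG [Nonempty n] (D1 D2 E y g gi : Matrix n n ℤ) (hg : g * gi = 1)
    (h1 : 0 < D1.det) (h2 : 0 < D2.det)
    (hE : 0 < E.det) (k1 : GE 1 (D1.adjugate * E)) (k2 : GE 1 (D2.adjugate * (gi * E)))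
    (y1 : GE 1 (y * D1)) (y2 : GE 1 (y * (g * D2))) (K : ℤ) :
    ∃ C : ℤ, ∀ A : Matrix n n ℤ, GE C (E.adjugate * A * D1) →
      GE C (E.adjugate * A * (g * D2)) →
      ∃ W1 W2 : Matrix n (n ⊕ (n ⊕ n)) ℤ, W1 * UU D1 = A ∧ W2 * UU D2 = gi * A * g ∧
        GE K (UU D1 * W1) ∧ GE K (UU D2 * W2) ∧ QQ (UU D1 * W1) (UU D2 * W2) := by
  have hg' : gi * g = 1 := mul_eq_one_comm.mp hg
  obtain ⟨c1, hc1⟩ := ex D1 h1 (max K 0)
  obtain ⟨c2, hc2⟩ := ex D2 h2 (max K 0)
  obtain ⟨d1, hd11, hd1⟩ := exists_bd D1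
  obtain ⟨d2, hd21, hd2⟩ := exists_bd (g * D2)
  obtain ⟨u1, hu11, hu1⟩ := exists_bd (UU D1)
  obtain ⟨u2, hu21, hu2⟩ := exists_bd (UU D2 * gi)
  obtain ⟨y0, hy01, hy0⟩ := exists_bd y
  obtain ⟨q, hq1, hq⟩ := exists_bd E.adjugate
  set d : ℤ := max d1 d2 with hd
  have hd1' : ∀ i j, |D1 i j| ≤ d := fun i j => (hd1 i j).trans (le_max_left _ _)
  have hd2' : ∀ i j, |(g * D2) i j| ≤ d := fun i j => (hd2 i j).trans (le_max_right _ _)
  have hd0 : 1 ≤ d := hd11.trans (le_max_left _ _)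
  set N0 : ℤ := max u1 u2 with hN0
  have hN01 : 1 ≤ N0 := hu11.trans (le_max_left _ _)
  set c : ℤ := max (max c1 c2) 0 with hc
  have hc0 : 0 ≤ c := le_max_right _ _
  have hcc1 : c1 ≤ c := (le_max_left _ _).trans (le_max_left _ _)
  have hcc2 : c2 ≤ c := (le_max_right _ _).trans (le_max_left _ _)
  set ν : ℤ := (Fintype.card n : ℤ) with hν
  have hν0 : 0 ≤ ν := by rw [hν]; exact Int.natCast_nonneg _
  set M : ℤ := E.det with hM
  set s : ℤ := c + ν * (M * d) with hs
  have hs0 : 0 ≤ s := by positivity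
  set f : ℤ := M + s * y0 with hf
  have hf0 : 0 ≤ f := by positivity
  set g1 : ℤ := ν * (ν * (1 * f) * d) with hg1
  have hg10 : 0 ≤ g1 := by positivity
  set g2 : ℤ := ν * (ν * (q * f) * d) with hg2
  have hg20 : 0 ≤ g2 := by positivity
  refine ⟨M * (c + N0 * g1) + g2, ?_⟩
  intro A hA1 hA2
  set A' : Matrix n n ℤ := Matrix.of fun i j => (A i j - s * y i j) / M with hA'
  set V : Matrix n n ℤ := Matrix.of fun i j => (A i j - s * y i j) % M with hV
  set F : Matrix n n ℤ := V + s • y with hF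
  have eA : A = M • A' + F := by
    ext i j
    simp only [hA', hF, hV, Matrix.add_apply, Matrix.smul_apply, Matrix.of_apply, smul_eq_mul]
    have := Int.emod_add_mul_ediv (A i j - s * y i j) M
    linarith
  have hV0 : ∀ i j, 0 ≤ V i j := fun i j => Int.emod_nonneg _ hE.ne'
  have hVM : ∀ i j, V i j ≤ M := fun i j => (Int.emod_lt_of_pos _ hE).le
  have hVabs : ∀ i j, |V i j| ≤ M := fun i j => by rw [abs_of_nonneg (hV0 i j)]; exact hVM i j
  have hFabs : ∀ i j, |F i j| ≤ f := by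
    intro i j
    simp only [hF, Matrix.add_apply, Matrix.smul_apply, smul_eq_mul]
    refine (abs_add_le _ _).trans ?_
    rw [abs_mul, abs_of_nonneg hs0]
    exact add_le_add (hVabs i j) (mul_le_mul_of_nonneg_left (hy0 i j) hs0)
  -- the rows of `F`
  have hFD : ∀ D : Matrix n n ℤ, (∀ i j, |D i j| ≤ d) → GE 1 (y * D) → GE c (F * D) := by
    intro D hDd hyD i j
    have e1 : (F * D) i j = (V * D) i j + s * (y * D) i j := by
      rw [hF, Matrix.add_mul, Matrix.smul_mul]; rfl
    have e2 : |(V * D) i j| ≤ ν * (M * d) := abs_mul_le hVabs hDd i j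
    have e3 := (abs_le.mp e2).1
    have e4 : s * 1 ≤ s * (y * D) i j := mul_le_mul_of_nonneg_left (hyD i j) hs0
    rw [e1]; linarith
  -- the rows of the first block
  set B : Matrix n n ℤ := E.adjugate * A' - N0 • (Jn n * F) with hB
  have hBD : ∀ D : Matrix n n ℤ, (∀ i j, |D i j| ≤ d) →
      GE (M * (c + N0 * g1) + g2) (E.adjugate * A * D) → GE c (B * D) := by
    intro D hDd hAD i j
    have e1 : (E.adjugate * A * D) i j = M * (E.adjugate * A' * D) i j +
        (E.adjugate * F * D) i j := by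
      rw [eA, Matrix.mul_add, Matrix.add_mul, Matrix.mul_smul, Matrix.smul_mul]; rfl
    have e2 : |(E.adjugate * F * D) i j| ≤ g2 :=
      abs_mul_le (abs_mul_le' hq hFabs) hDd i j
    have e3 : |(Jn n * F * D) i j| ≤ g1 :=
      abs_mul_le (abs_mul_le' (fun i j => by simp [Jn]) hFabs) hDd i j
    have e4 : (B * D) i j = (E.adjugate * A' * D) i j - N0 * (Jn n * F * D) i j := by
      rw [hB, Matrix.sub_mul, Matrix.smul_mul]; rfl
    have e5 := hAD i j
    rw [e1] at e5
    have e6 := (abs_le.mp e2).2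
    have e7 := (abs_le.mp e3).2
    have e8 : M * (c + N0 * g1) ≤ M * (E.adjugate * A' * D) i j := by linarith
    have e9 := le_of_mul_le_mul_left e8 hE
    have e10 : N0 * (Jn n * F * D) i j ≤ N0 * g1 := mul_le_mul_of_nonneg_left e7 (by linarith)
    rw [e4]; linarith
  set Y : Matrix (n ⊕ n) n ℤ := Matrix.fromRows B F with hY
  have hYD : ∀ D : Matrix n n ℤ, (∀ i j, |D i j| ≤ d) → GE 1 (y * D) →
      GE (M * (c + N0 * g1) + g2) (E.adjugate * A * D) → GE c (Y * D) := by
    intro D hDd hyD hAD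
    rw [hY, Matrix.fromRows_mul]
    rintro (i | i) j
    · exact hBD D hDd hAD i j
    · exact hFD D hDd hyD i j
  obtain ⟨α1, ha1, he1⟩ := hc1 Y ((hYD D1 hd1' y1 hA1).mono hcc1)
  obtain ⟨α2, ha2, he2⟩ := hc2 (Y * g) (by
    rw [Matrix.mul_assoc]
    exact (hYD (g * D2) hd2' y2 hA2).mono hcc2)
  have he2' : α2 * (UU D2 * gi) = Y := by
    rw [← Matrix.mul_assoc, he2, Matrix.mul_assoc, hg, Matrix.mul_one]
  set X : Matrix n (n ⊕ n) ℤ := Matrix.fromCols E (N0 • (E * Jn n) + 1) with hX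
  have hXY : X * Y = A := by
    rw [hX, hY, Matrix.fromCols_mul_fromRows, hB, Matrix.mul_sub, ← Matrix.mul_assoc,
      Matrix.mul_adjugate, Matrix.smul_mul, Matrix.one_mul, Matrix.add_mul, Matrix.one_mul,
      Matrix.mul_smul, Matrix.smul_mul, Matrix.mul_assoc, eA]
    abel
  have hUX : ∀ U : Matrix (n ⊕ (n ⊕ n)) n ℤ, GE 1 (U * E) →
      (∀ i j, |U i j| ≤ N0) → RP (U * X) := by
    intro U g1 hu
    have g2 : NN (U * (N0 • (E * Jn n) + 1)) := by
      intro i j
      rw [Matrix.mul_add, Matrix.mul_one, Matrix.mul_smul, ← Matrix.mul_assoc]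
      simp only [Matrix.add_apply, Matrix.smul_apply, smul_eq_mul]
      have g3 : 1 ≤ (U * E * Jn n) i j := by
        rw [Matrix.mul_apply]
        obtain ⟨k⟩ := (inferInstance : Nonempty n)
        have g4 : (U * E) i k * Jn n k j ≤ ∑ l, (U * E) i l * Jn n l j :=
          Finset.single_le_sum (f := fun l => (U * E) i l * Jn n l j)
            (fun l _ => mul_nonneg ((by norm_num : (0:ℤ) ≤ 1).trans (g1 i l))
              (by simp [Jn])) (Finset.mem_univ k)
        have g5 := g1 i k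
        simp only [Jn, Matrix.of_apply, mul_one] at g4 ⊢
        linarith
      have g6 := (abs_le.mp (hu i j)).1
      nlinarith
    rw [hX, Matrix.mul_fromCols]
    refine ⟨(g1.nn (by norm_num)).fromCols g2, ?_⟩
    intro i
    obtain ⟨k⟩ := (inferInstance : Nonempty n)
    exact ⟨Sum.inl k, g1 i k⟩
  have r1 := hUX (UU D1) (U_ge D1 h1 E k1) (fun i j => (hu1 i j).trans (le_max_left _ _))
  have r2 := hUX (UU D2 * gi) (by
    rw [Matrix.mul_assoc]
    exact U_ge D2 h2 (gi * E) k2) (fun i j => (hu2 i j).trans (le_max_right _ _))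
  have e2 : UU D2 * (gi * (X * α2)) = UU D2 * gi * X * α2 := by
    simp only [Matrix.mul_assoc]
  refine ⟨X * α1, gi * (X * α2), ?_, ?_, ?_, ?_, ?_⟩
  · rw [Matrix.mul_assoc, he1, hXY]
  · have : gi * (X * α2) * UU D2 = gi * (X * (α2 * UU D2)) := by
      simp only [Matrix.mul_assoc]
    rw [this, he2, ← Matrix.mul_assoc X, hXY, Matrix.mul_assoc]
  · rw [← Matrix.mul_assoc]
    exact (r1.mul_ge ha1 (le_max_right _ _)).mono (le_max_left _ _)
  · rw [e2]
    exact (r2.mul_ge ha2 (le_max_right _ _)).mono (le_max_left _ _)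
  · rw [← Matrix.mul_assoc, e2]
    exact bl _ _ X α1 α2 r1.1 r2.1 (ha1.nn (le_max_right _ _)) (ha2.nn (le_max_right _ _))
      (by rw [he1, he2'])

/-- Two cones in two coordinate systems are linked at `A₀`. -/
def RelG (A₀ : Matrix n n ℝ) (g gi D D' : Matrix n n ℤ) : Prop :=
  ∀ K : ℤ, Ev A₀ (fun A => ∃ W W' : Matrix n (n ⊕ (n ⊕ n)) ℤ, W * UU D = A ∧
    W' * UU D' = gi * A * g ∧ GE K (UU D * W) ∧ GE K (UU D' * W') ∧
    QQ (UU D * W) (UU D' * W'))

lemma cR_mul3 (A B C : Matrix n n ℤ) : cR (A * B * C) = cR A * cR B * cR C := by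
  rw [cR_mul, cR_mul]

/-- A cone and the same cone in other coordinates. -/
lemma relG_of_good [Nonempty n] (A₀ G : Matrix n n ℝ) (D1 D2 g gi : Matrix n n ℤ)
    (hg : g * gi = 1) (h1 : Good A₀ (cR D1) G) (hD2 : 0 < D2.det)
    (h2 : ∀ i j, 0 < (cR D2.adjugate * (cR gi * G)) i j)
    (h3 : ∀ i j, 0 < (G.adjugate * A₀ * (cR g * cR D2)) i j) : RelG A₀ g gi D1 D2 := by
  intro K
  obtain ⟨E, hE1, hE2, hE3⟩ := exists_int ({G : Matrix n n ℝ | Good A₀ (cR D1) G} ∩
      ({G : Matrix n n ℝ | ∀ i j : n, 0 < (cR D2.adjugate * (cR gi * G)) i j} ∩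
      {G : Matrix n n ℝ | ∀ i j : n, 0 < (G.adjugate * A₀ * (cR g * cR D2)) i j}))
    (by
      refine (isOpen_good_right _ _).inter (IsOpen.inter ?_ ?_)
      · simp only [Set.ofPred_forall]
        refine isOpen_iInter_of_finite fun i => isOpen_iInter_of_finite fun j => ?_
        exact isOpen_lt continuous_const
          ((continuous_const.matrix_mul (continuous_const.matrix_mul
            continuous_id)).matrix_elem i j)
      · simp only [Set.ofPred_forall]
        refine isOpen_iInter_of_finite fun i => isOpen_iInter_of_finite fun j => ?_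
        exact isOpen_lt continuous_const
          (((continuous_id.matrix_adjugate.matrix_mul continuous_const).matrix_mul
            continuous_const).matrix_elem i j))
    (by
      rintro M ⟨hM1, hM2, hM3⟩ t ht
      refine ⟨Good.smul_right hM1 ht, ?_, ?_⟩
      · intro i j
        rw [Matrix.mul_smul, Matrix.mul_smul, Matrix.smul_apply, smul_eq_mul]
        exact mul_pos ht (hM2 i j)
      · intro i j
        rw [Matrix.adjugate_smul, Matrix.smul_mul, Matrix.smul_mul, Matrix.smul_apply,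
          smul_eq_mul]
        exact mul_pos (pow_pos ht _) (hM3 i j)) G ⟨h1, h2, h3⟩
  obtain ⟨a1, b1, c1, d1⟩ := hE1
  have hD1 : 0 < D1.det := by rw [cR_det] at a1; exact_mod_cast a1
  have hE : 0 < E.det := by rw [cR_det] at b1; exact_mod_cast b1
  have k1 : GE 1 (D1.adjugate * E) := by
    apply ge_one_of_pos
    rw [cR_mul, ← cR_adj]; exact c1
  have k2 : GE 1 (D2.adjugate * (gi * E)) := by
    apply ge_one_of_pos
    rw [cR_mul, cR_mul]; exact hE2
  -- an integer matrix of functionals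
  obtain ⟨A1, hA1, hA2⟩ := exists_int
    ({A : Matrix n n ℝ | ∀ i j : n, 0 < ((cR E).adjugate * A * cR D1) i j} ∩
      {A : Matrix n n ℝ | ∀ i j : n, 0 < ((cR E).adjugate * A * (cR g * cR D2)) i j})
    (by
      simp only [Set.ofPred_forall]
      refine IsOpen.inter ?_ ?_
      all_goals
        refine isOpen_iInter_of_finite fun i => isOpen_iInter_of_finite fun j => ?_
        exact isOpen_lt continuous_const
          (((continuous_const.matrix_mul continuous_id).matrix_mul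
            continuous_const).matrix_elem i j))
    (by
      rintro M ⟨hM1, hM2⟩ t ht
      constructor
      · intro i j
        rw [Matrix.mul_smul, Matrix.smul_mul, Matrix.smul_apply, smul_eq_mul]
        exact mul_pos ht (hM1 i j)
      · intro i j
        rw [Matrix.mul_smul, Matrix.smul_mul, Matrix.smul_apply, smul_eq_mul]
        exact mul_pos ht (hM2 i j)) A₀ ⟨d1, hE3⟩
  have y1 : GE 1 (E.adjugate * A1 * D1) := by
    apply ge_one_of_pos
    rw [cR_mul, cR_mul, ← cR_adj]; exact hA1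
  have y2 : GE 1 (E.adjugate * A1 * (g * D2)) := by
    apply ge_one_of_pos
    rw [cR_mul, cR_mul, cR_mul, ← cR_adj]; exact hA2
  obtain ⟨C, hC⟩ := transferG D1 D2 E (E.adjugate * A1) g gi hg hD1 hD2 hE k1 k2 y1 y2 K
  refine ((Ev.big A₀ E.adjugate D1 ?_ C).and (Ev.big A₀ E.adjugate (g * D2) ?_ C)).mono ?_
  · rw [← cR_adj]; exact d1
  · rw [← cR_adj, cR_mul]; exact hE3
  · rintro A ⟨g1, g2⟩
    exact hC A g1 g2

/-- Conjugation of directions. -/
lemma Ev.conj (A₀ : Matrix n n ℝ) (g gi : Matrix n n ℤ) {p : Matrix n n ℤ → Prop}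
    (h : Ev (cR gi * A₀ * cR g) p) : Ev A₀ (fun A => p (gi * A * g)) := by
  obtain ⟨ε, hε, T, hT⟩ := h
  obtain ⟨l, hl1, hl⟩ := exists_bd gi
  obtain ⟨r, hr1, hr⟩ := exists_bd g
  have hl1' : (1 : ℝ) ≤ l := by exact_mod_cast hl1
  have hr1' : (1 : ℝ) ≤ r := by exact_mod_cast hr1
  set c : ℝ := (Fintype.card n : ℝ) * ((Fintype.card n : ℝ) * l * r) with hc
  have hc0 : 0 ≤ c := by positivity
  refine ⟨ε / (c + 1), by positivity, T, ?_⟩
  rintro A ⟨τ, hτ, hτ0, hA⟩
  refine hT _ ⟨τ, hτ, hτ0, ?_⟩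
  intro i j
  set B : Matrix n n ℝ := cR A - τ • A₀ with hB
  set η : ℝ := ε / (c + 1) * τ with hη
  have hη0 : 0 ≤ η := by positivity
  have e1 : cR (gi * A * g) - τ • (cR gi * A₀ * cR g) = cR gi * B * cR g := by
    rw [cR_mul, cR_mul, hB, Matrix.mul_sub, Matrix.sub_mul, Matrix.mul_smul, Matrix.smul_mul]
  have h1 : ∀ i k, |(cR gi * B) i k| ≤ (Fintype.card n : ℝ) * (l * η) := by
    intro i k
    rw [Matrix.mul_apply]
    calc |∑ m, cR gi i m * B m k| ≤ ∑ m, |cR gi i m * B m k| := Finset.abs_sum_le_sum_abs _ _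
      _ ≤ ∑ _m : n, (l : ℝ) * η := by
          refine Finset.sum_le_sum fun m _ => ?_
          rw [abs_mul]
          refine mul_le_mul ?_ ?_ (abs_nonneg _) (by linarith)
          · have := hl i m
            have h2 : |((gi i m : ℤ) : ℝ)| ≤ l := by exact_mod_cast this
            exact h2
          · have := hA m k
            simpa [hB, cR] using this
      _ = _ := by rw [Finset.sum_const, Finset.card_univ, nsmul_eq_mul]
  have e2 : |(cR gi * B * cR g) i j| ≤ c * η := by
    rw [Matrix.mul_apply]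
    calc |∑ m, (cR gi * B) i m * cR g m j| ≤ ∑ m, |(cR gi * B) i m * cR g m j| :=
          Finset.abs_sum_le_sum_abs _ _
      _ ≤ ∑ _m : n, (Fintype.card n : ℝ) * (l * η) * r := by
          refine Finset.sum_le_sum fun m _ => ?_
          rw [abs_mul]
          refine mul_le_mul (h1 i m) ?_ (abs_nonneg _) (by positivity)
          have := hr m j
          have h2 : |((g m j : ℤ) : ℝ)| ≤ r := by exact_mod_cast this
          exact h2
      _ = c * η := by
          rw [Finset.sum_const, Finset.card_univ, nsmul_eq_mul, hc]; ring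
  have e3 : ((gi * A * g) i j : ℝ) - τ * (cR gi * A₀ * cR g) i j =
      (cR gi * B * cR g) i j := by
    have := congrFun (congrFun e1 i) j
    simpa [cR] using this
  rw [e3]
  refine e2.trans ?_
  rw [hη]
  have : c * (ε / (c + 1) * τ) = (c / (c + 1)) * (ε * τ) := by
    field_simp
  rw [this]
  have h1 : c / (c + 1) ≤ 1 := by
    rw [div_le_one (by linarith)]; linarith
  calc c / (c + 1) * (ε * τ) ≤ 1 * (ε * τ) :=
        mul_le_mul_of_nonneg_right h1 (mul_nonneg hε.le hτ0)
    _ = _ := one_mul _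

lemma RelG.trans_right {A₀ : Matrix n n ℝ} {g gi D D' D'' : Matrix n n ℤ}
    (h : RelG A₀ g gi D D') (h' : Rel (cR gi * A₀ * cR g) D' D'') (hD : 0 < D'.det) :
    RelG A₀ g gi D D'' := by
  intro K
  obtain ⟨K1, hK1⟩ := connectU D' hD
  refine ((h (max K K1)).and (Ev.conj A₀ g gi (h' (max K K1)))).mono ?_
  rintro A ⟨⟨W, W1, h1, h2, h3, h4, h5⟩, ⟨W2, W', k1, k2, k3, k4, k5⟩⟩
  refine ⟨W, W', h1, k2, h3.mono (le_max_left _ _), k4.mono (le_max_left _ _), ?_⟩
  exact h5.trans ((hK1 W1 W2 (by rw [h2, k1]) (h4.mono (le_max_right _ _))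
    (k3.mono (le_max_right _ _))).trans k5)

/-- Uniformity over a compact set of directions. -/
lemma compact_ev (S : Set (Matrix n n ℝ)) (hS : IsCompact S) (p : Matrix n n ℤ → Prop)
    (h : ∀ A₀ ∈ S, Ev A₀ p) :
    ∃ T : ℝ, 0 < T ∧ ∀ τ : ℝ, T ≤ τ → ∀ A : Matrix n n ℤ, τ⁻¹ • cR A ∈ S → p A := by
  classical
  choose! ε hε T hT using h
  have hcover := hS.elim_nhds_subcover
    (fun A₀ => {B : Matrix n n ℝ | ∀ i j, |B i j - A₀ i j| < ε A₀}) (by
      intro A₀ hA₀
      have hopen : IsOpen {B : Matrix n n ℝ | ∀ i j, |B i j - A₀ i j| < ε A₀} := by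
        simp only [Set.ofPred_forall]
        refine isOpen_iInter_of_finite fun i => isOpen_iInter_of_finite fun j => ?_
        exact isOpen_lt (((continuous_id.matrix_elem i j).sub continuous_const).abs)
          continuous_const
      refine hopen.mem_nhds ?_
      intro i j
      simpa using hε A₀ hA₀)
  obtain ⟨t, ht, ht2⟩ := hcover
  refine ⟨max 1 (∑ A₀ ∈ t, |T A₀|), by positivity, ?_⟩
  intro τ hτ A hA
  have hτ1 : 1 ≤ τ := (le_max_left _ _).trans hτ
  have hτ2 : ∑ A₀ ∈ t, |T A₀| ≤ τ := (le_max_right _ _).trans hτ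
  have h1 := ht2 hA
  simp only [Set.mem_iUnion, Set.mem_ofPred_eq] at h1
  obtain ⟨A₀, hA₀, h2⟩ := h1
  refine hT A₀ (ht A₀ hA₀) A ⟨τ, ?_, by linarith, ?_⟩
  · have h3 : |T A₀| ≤ ∑ A₀ ∈ t, |T A₀| :=
      Finset.single_le_sum (f := fun A₀ => |T A₀|) (fun _ _ => abs_nonneg _) hA₀
    exact (le_abs_self _).trans (h3.trans hτ2)
  · intro i j
    have h3 := h2 i j
    have h4 : (A i j : ℝ) - τ * A₀ i j = τ * ((τ⁻¹ • cR A) i j - A₀ i j) := by
      simp only [Matrix.smul_apply, cR, Matrix.map_apply, smul_eq_mul]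
      rw [mul_sub, ← mul_assoc, mul_inv_cancel₀ (by linarith), one_mul]
    rw [h4, abs_mul, abs_of_pos (by linarith : 0 < τ), mul_comm]
    exact mul_le_mul_of_nonneg_right h3.le (by linarith)

end Pool.Agent.H81SSE
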