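import Pool.Agent.H81SSE.Path.G

/-!
# Two by two matrices: all cones of one direction are linked
-/

set_option autoImplicit false
set_option linter.unusedSectionVars false

namespace Pool.Agent.H81SSE

open Matrix

section General

variable {n : Type} [Fintype n] [DecidableEq n]

/-- The cone spanned by the columns of `D` is mapped to its interior. -/
def Val (A₀ D : Matrix n n ℝ) : Prop := 0 < D.det ∧ ∀ i j, 0 < (D.adjugate * A₀ * D) i j

lemma mul_pos_entries [Nonempty n] {X Y : Matrix n n ℝ} (hX : ∀ i j, 0 < X i j)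
    (hY : ∀ i j, 0 < Y i j) (i j : n) : 0 < (X * Y) i j := by
  rw [Matrix.mul_apply]
  exact Finset.sum_pos (fun k _ => mul_pos (hX i k) (hY k j)) Finset.univ_nonempty

lemma Good.val [Nonempty n] {A₀ D G : Matrix n n ℝ} (h : Good A₀ D G) : Val A₀ D := by
  obtain ⟨h1, h2, h3, h4⟩ := h
  refine ⟨h1, ?_⟩
  intro i j
  have e : G.det • (D.adjugate * A₀ * D) = (D.adjugate * G) * (G.adjugate * A₀ * D) := by
    have : D.adjugate * G * (G.adjugate * A₀ * D) =
        D.adjugate * ((G * G.adjugate) * (A₀ * D)) := by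
      simp only [Matrix.mul_assoc]
    rw [this, Matrix.mul_adjugate, Matrix.smul_mul, Matrix.one_mul, Matrix.mul_smul,
      Matrix.mul_assoc]
  have h5 := mul_pos_entries h3 h4 i j
  rw [← e, Matrix.smul_apply, smul_eq_mul] at h5
  exact (mul_pos_iff_of_pos_left h2).mp h5

/-- Cones joined by a path are linked. -/
theorem rel_of_path [Nonempty n] (A₀ : Matrix n n ℝ) (γ : unitInterval → Matrix n n ℝ)
    (hγ : Continuous γ) (D0 D1 : Matrix n n ℤ) (h0 : γ 0 = cR D0) (h1 : γ 1 = cR D1)
    (hval : ∀ t, Val A₀ (γ t)) : Rel A₀ D0 D1 := by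
  have hS : {t : unitInterval | ∀ D : Matrix n n ℤ, Good A₀ (cR D) (γ t) → Rel A₀ D0 D} =
      Set.univ := by
    refine IsClopen.eq_univ ⟨?_, ?_⟩ ?_
    · rw [← isOpen_compl_iff, isOpen_iff_mem_nhds]
      intro t ht
      simp only [Set.mem_compl_iff, Set.mem_ofPred_eq, not_forall] at ht
      obtain ⟨D, hD, hD'⟩ := ht
      have := ((isOpen_good_right A₀ (cR D)).preimage hγ).mem_nhds hD
      filter_upwards [this] with s hs
      simp only [Set.mem_compl_iff, Set.mem_ofPred_eq, not_forall]
      exact ⟨D, hs, hD'⟩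
    · rw [isOpen_iff_mem_nhds]
      intro t ht
      obtain ⟨D, hD⟩ := exists_good A₀ (γ t) (hval t).1 (hval t).2
      have hrel := ht D hD
      have hDdet : 0 < D.det := by
        have := hD.1
        rw [cR_det] at this; exact_mod_cast this
      have := ((isOpen_good_right A₀ (cR D)).preimage hγ).mem_nhds hD
      filter_upwards [this] with s hs
      intro D' hD'
      exact hrel.trans (rel_of_good A₀ (γ s) D D' hs hD') hDdet
    · refine ⟨0, ?_⟩
      intro D hD
      rw [h0] at hD
      have hval0 := hval 0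
      rw [h0] at hval0
      obtain ⟨X, hX1, hX2⟩ := exists_good_inner A₀ (cR D0) hval0.1 hval0.2
        {G | Good A₀ (cR D) G} (isOpen_good_right _ _) hD
      exact rel_of_good A₀ X D0 D hX2 hX1
  obtain ⟨D, hD⟩ := exists_good A₀ (γ 1) (hval 1).1 (hval 1).2
  have hrel : Rel A₀ D0 D := by
    have : (1 : unitInterval) ∈ {t : unitInterval | ∀ D : Matrix n n ℤ,
        Good A₀ (cR D) (γ t) → Rel A₀ D0 D} := by rw [hS]; trivial
    exact this D hD
  have hDdet : 0 < D.det := by
    have := hD.1
    rw [cR_det] at this; exact_mod_cast this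
  obtain ⟨X, hX1, hX2⟩ := exists_good_inner A₀ (γ 1) (hval 1).1 (hval 1).2
    {G | Good A₀ (cR D) G} (isOpen_good_right _ _) hD
  rw [h1] at hX2
  exact hrel.trans (rel_of_good A₀ X D D1 hX1 hX2) hDdet

end General

/-- A real `2 × 2` matrix of positive trace and positive discriminant is diagonalizable. -/
lemma dec (A₀ : Matrix (Fin 2) (Fin 2) ℝ) (htr : 0 < A₀ 0 0 + A₀ 1 1)
    (hdisc : 0 < (A₀ 0 0 - A₀ 1 1) ^ 2 + 4 * (A₀ 0 1 * A₀ 1 0)) :
    ∃ (S : Matrix (Fin 2) (Fin 2) ℝ) (l m : ℝ), 0 < S.det ∧ m < l ∧ 0 < l + m ∧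
      A₀ * S = S * !![l, 0; 0, m] := by
  obtain ⟨a, b, c, d, rfl⟩ : ∃ a b c d : ℝ, A₀ = !![a, b; c, d] :=
    ⟨A₀ 0 0, A₀ 0 1, A₀ 1 0, A₀ 1 1, by ext i j; fin_cases i <;> fin_cases j <;> rfl⟩
  simp only [Matrix.of_apply, Matrix.cons_val', Matrix.cons_val_zero, Matrix.cons_val_one,
    Matrix.cons_val_fin_one] at htr hdisc
  set r : ℝ := √((a - d) ^ 2 + 4 * (b * c)) with hr
  have hr0 : 0 < r := Real.sqrt_pos.mpr hdisc
  have hr2 : r ^ 2 = (a - d) ^ 2 + 4 * (b * c) := Real.sq_sqrt hdisc.le
  -- it is enough to find an invertible matrix of eigenvectors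
  have key : ∀ v1 v2 u1 u2 : ℝ, v1 * u2 - u1 * v2 ≠ 0 →
      a * v1 + b * v2 = (a + d + r) / 2 * v1 → c * v1 + d * v2 = (a + d + r) / 2 * v2 →
      a * u1 + b * u2 = (a + d - r) / 2 * u1 → c * u1 + d * u2 = (a + d - r) / 2 * u2 →
      ∃ (S : Matrix (Fin 2) (Fin 2) ℝ) (l m : ℝ), 0 < S.det ∧ m < l ∧ 0 < l + m ∧
      !![a, b; c, d] * S = S * !![l, 0; 0, m] := by
    intro v1 v2 u1 u2 hne e1 e2 e3 e4
    rcases lt_or_gt_of_ne hne with h | h
    · refine ⟨!![v1, -u1; v2, -u2], (a + d + r) / 2, (a + d - r) / 2, ?_, by linarith,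
        by linarith, ?_⟩
      · rw [Matrix.det_fin_two_of]; linarith
      · ext i j
        fin_cases i <;> fin_cases j <;>
          simp [Matrix.mul_apply, Fin.sum_univ_two] <;> linarith
    · refine ⟨!![v1, u1; v2, u2], (a + d + r) / 2, (a + d - r) / 2, ?_, by linarith,
        by linarith, ?_⟩
      · rw [Matrix.det_fin_two_of]; linarith
      · ext i j
        fin_cases i <;> fin_cases j <;>
          simp [Matrix.mul_apply, Fin.sum_univ_two] <;> linarith
  by_cases hb : b = 0
  · by_cases hc : c = 0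
    · subst hb hc
      have hr3 : r ^ 2 = (a - d) ^ 2 := by rw [hr2]; ring
      rcases (sq_eq_sq_iff_eq_or_eq_neg).mp hr3 with h | h
      · exact key 1 0 0 1 (by norm_num) (by rw [h]; ring) (by ring) (by ring)
          (by rw [h]; ring)
      · exact key 0 1 1 0 (by norm_num) (by ring) (by rw [h]; ring) (by rw [h]; ring)
          (by ring)
    · subst hb
      refine key ((a + d + r) / 2 - d) c ((a + d - r) / 2 - d) c ?_ ?_ ?_ ?_ ?_
      · intro h
        have : c * r = 0 := by linear_combination h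
        rcases mul_eq_zero.mp this with h | h
        · exact hc h
        · exact hr0.ne' h
      · linear_combination (-1 / 4 : ℝ) * hr2
      · ring
      · linear_combination (-1 / 4 : ℝ) * hr2
      · ring
  · refine key b ((a + d + r) / 2 - a) b ((a + d - r) / 2 - a) ?_ ?_ ?_ ?_ ?_
    · intro h
      have : b * r = 0 := by linear_combination -h
      rcases mul_eq_zero.mp this with h | h
      · exact hb h
      · exact hr0.ne' h
    · ring
    · linear_combination (-1 / 4 : ℝ) * hr2
    · ring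
    · linear_combination (-1 / 4 : ℝ) * hr2

/-- Cones in coordinates given by eigenvectors. -/
def CM (a b p q : ℝ) : Matrix (Fin 2) (Fin 2) ℝ := !![a, b; -(a * p), b * q]

lemma val_CM (A₀ S : Matrix (Fin 2) (Fin 2) ℝ) (l m : ℝ) (hS : 0 < S.det) (hlm : m < l)
    (hA : A₀ * S = S * !![l, 0; 0, m]) (a b p q σ : ℝ) (ha : 0 < a) (hb : 0 < b) (hp : 0 < p)
    (hq : 0 < q) (h1 : 0 < l * q + m * p) (h2 : 0 < l * p + m * q) (hσ : σ * σ = 1) :
    Val A₀ (σ • (S * CM a b p q)) := by
  have hlm' : 0 < l - m := by linarith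
  constructor
  · rw [Matrix.det_smul, Matrix.det_mul]
    have e : (CM a b p q).det = a * b * (p + q) := by
      unfold CM; rw [Matrix.det_fin_two_of]; ring
    rw [e, Fintype.card_fin, pow_two, hσ, one_mul]
    positivity
  · intro i j
    have e1 : (σ • (S * CM a b p q)).adjugate * A₀ * (σ • (S * CM a b p q)) =
        S.det • ((CM a b p q).adjugate * !![l, 0; 0, m] * CM a b p q) := by
      rw [Matrix.adjugate_smul, Fintype.card_fin]
      simp only [Nat.add_one_sub_one, pow_one, Matrix.smul_mul, Matrix.mul_smul, smul_smul, hσ,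
        one_smul]
      rw [Matrix.adjugate_mul_distrib]
      have : (CM a b p q).adjugate * S.adjugate * A₀ * (S * CM a b p q) =
          (CM a b p q).adjugate * (S.adjugate * ((A₀ * S) * CM a b p q)) := by
        simp only [Matrix.mul_assoc]
      rw [this, hA]
      have : S.adjugate * (S * !![l, 0; 0, m] * CM a b p q) =
          (S.adjugate * S) * (!![l, 0; 0, m] * CM a b p q) := by
        simp only [Matrix.mul_assoc]
      rw [this, Matrix.adjugate_mul, Matrix.smul_mul, Matrix.one_mul, Matrix.mul_smul,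
        Matrix.mul_assoc]
    have e2 : (CM a b p q).adjugate * !![l, 0; 0, m] * CM a b p q =
        !![a * b * (l * q + m * p), b * b * q * (l - m); a * a * p * (l - m),
          a * b * (l * p + m * q)] := by
      unfold CM
      rw [Matrix.adjugate_fin_two_of]
      ext i j
      fin_cases i <;> fin_cases j <;> simp [Matrix.mul_apply, Fin.sum_univ_two] <;> ring
    rw [e1, e2, Matrix.smul_apply, smul_eq_mul]
    refine mul_pos hS ?_
    fin_cases i <;> fin_cases j <;> simp <;> positivity

/-- Every cone that is mapped to its interior has this form. -/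
lemma form_of_val (A₀ S D : Matrix (Fin 2) (Fin 2) ℝ) (l m : ℝ) (hS : 0 < S.det) (hlm : m < l)
    (hA : A₀ * S = S * !![l, 0; 0, m]) (hD : Val A₀ D) :
    ∃ a b p q σ : ℝ, 0 < a ∧ 0 < b ∧ 0 < p ∧ 0 < q ∧ 0 < l * q + m * p ∧ 0 < l * p + m * q ∧
      (σ = 1 ∨ σ = -1) ∧ D = σ • (S * CM a b p q) := by
  have hlm' : 0 < l - m := by linarith
  -- coordinates
  obtain ⟨M, hM⟩ : ∃ M : Matrix (Fin 2) (Fin 2) ℝ, D = S * M := by
    refine ⟨(S.det)⁻¹ • (S.adjugate * D), ?_⟩
    rw [Matrix.mul_smul, ← Matrix.mul_assoc, Matrix.mul_adjugate, Matrix.smul_mul,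
      Matrix.one_mul, smul_smul, inv_mul_cancel₀ hS.ne', one_smul]
  obtain ⟨x, y, z, w, rfl⟩ : ∃ a b c d : ℝ, M = !![a, b; c, d] :=
    ⟨M 0 0, M 0 1, M 1 0, M 1 1, by ext i j; fin_cases i <;> fin_cases j <;> rfl⟩
  have hdet : 0 < x * w - y * z := by
    have h := hD.1
    rw [hM, Matrix.det_mul, Matrix.det_fin_two_of] at h
    exact (mul_pos_iff_of_pos_left hS).mp h
  have e1 : D.adjugate * A₀ * D =
      S.det • ((!![x, y; z, w] : Matrix (Fin 2) (Fin 2) ℝ).adjugate * !![l, 0; 0, m] *
        !![x, y; z, w]) := by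
    rw [hM, Matrix.adjugate_mul_distrib]
    have : (!![x, y; z, w] : Matrix (Fin 2) (Fin 2) ℝ).adjugate * S.adjugate * A₀ *
        (S * !![x, y; z, w]) =
        (!![x, y; z, w] : Matrix (Fin 2) (Fin 2) ℝ).adjugate *
          (S.adjugate * ((A₀ * S) * !![x, y; z, w])) := by
      simp only [Matrix.mul_assoc]
    rw [this, hA]
    have : S.adjugate * (S * !![l, 0; 0, m] * !![x, y; z, w]) =
        (S.adjugate * S) * (!![l, 0; 0, m] * !![x, y; z, w]) := by
      simp only [Matrix.mul_assoc]
    rw [this, Matrix.adjugate_mul, Matrix.smul_mul, Matrix.one_mul, Matrix.mul_smul,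
      Matrix.mul_assoc]
  have e2 : (!![x, y; z, w] : Matrix (Fin 2) (Fin 2) ℝ).adjugate * !![l, 0; 0, m] *
        !![x, y; z, w] =
      !![l * (x * w) - m * (y * z), (l - m) * (y * w); -((l - m) * (x * z)),
        m * (x * w) - l * (y * z)] := by
    rw [Matrix.adjugate_fin_two_of]
    ext i j
    fin_cases i <;> fin_cases j <;> simp [Matrix.mul_apply, Fin.sum_univ_two] <;> ring
  have hall : ∀ i j, 0 < (!![l * (x * w) - m * (y * z), (l - m) * (y * w);
      -((l - m) * (x * z)), m * (x * w) - l * (y * z)] : Matrix (Fin 2) (Fin 2) ℝ) i j := by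
    intro i j
    have h := hD.2 i j
    rw [e1, e2, Matrix.smul_apply, smul_eq_mul] at h
    exact (mul_pos_iff_of_pos_left hS).mp h
  have f1 : 0 < l * (x * w) - m * (y * z) := by simpa using hall 0 0
  have f2 : 0 < (l - m) * (y * w) := by simpa using hall 0 1
  have f3 : 0 < -((l - m) * (x * z)) := by simpa using hall 1 0
  have f4 : 0 < m * (x * w) - l * (y * z) := by simpa using hall 1 1
  have g2 : 0 < y * w := (mul_pos_iff_of_pos_left hlm').mp f2
  have g3 : x * z < 0 := by
    by_contra hcon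
    push Not at hcon
    have := mul_nonneg hlm'.le hcon
    linarith
  -- the positive case
  have main : ∀ x y z w : ℝ, 0 < x → z < 0 → 0 < y → 0 < w →
      0 < l * (x * w) - m * (y * z) → 0 < m * (x * w) - l * (y * z) →
      ∃ a b p q : ℝ, 0 < a ∧ 0 < b ∧ 0 < p ∧ 0 < q ∧ 0 < l * q + m * p ∧ 0 < l * p + m * q ∧
        (!![x, y; z, w] : Matrix (Fin 2) (Fin 2) ℝ) = CM a b p q := by
    intro x y z w hx hz hy hw k1 k2
    have hz' : 0 < -z := by linarith
    refine ⟨x, y, -z / x, w / y, hx, hy, by positivity, by positivity, ?_, ?_, ?_⟩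
    · have : l * (w / y) + m * (-z / x) = (l * (x * w) - m * (y * z)) / (x * y) := by
        field_simp; ring
      rw [this]; positivity
    · have : l * (-z / x) + m * (w / y) = (m * (x * w) - l * (y * z)) / (x * y) := by
        field_simp; ring
      rw [this]; positivity
    · unfold CM
      have h1 : -(x * (-z / x)) = z := by field_simp
      have h2 : y * (w / y) = w := by field_simp
      rw [h1, h2]
  have hne : x ≠ 0 := by
    intro h; rw [h, zero_mul] at g3; exact lt_irrefl _ g3
  rcases lt_or_gt_of_ne hne with hx | hx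
  · have hz : 0 < z := by
      by_contra hcon
      push Not at hcon
      have := mul_nonneg_of_nonpos_of_nonpos hx.le hcon
      linarith
    have hy : y < 0 := by
      by_contra hcon
      push Not at hcon
      have hy0 : 0 < y := by
        rcases hcon.lt_or_eq with h | h
        · exact h
        · rw [← h, zero_mul] at g2; exact absurd g2 (lt_irrefl _)
      have hw0 : 0 < w := (mul_pos_iff_of_pos_left hy0).mp g2
      nlinarith [mul_pos hy0 hz, mul_pos (neg_pos.mpr hx) hw0]
    have hw : w < 0 := by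
      by_contra hcon
      push Not at hcon
      have := mul_nonpos_of_nonpos_of_nonneg hy.le hcon
      linarith
    obtain ⟨a, b, p, q, i1, i2, i3, i4, i5, i6, i7⟩ := main (-x) (-y) (-z) (-w) (by linarith)
      (by linarith) (by linarith) (by linarith) (by linarith [f1]) (by linarith [f4])
    refine ⟨a, b, p, q, -1, i1, i2, i3, i4, i5, i6, Or.inr rfl, ?_⟩
    rw [← i7, hM, ← Matrix.mul_smul]
    congr 1
    ext i j
    fin_cases i <;> fin_cases j <;> simp
  · have hz : z < 0 := by
      by_contra hcon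
      push Not at hcon
      have := mul_nonneg hx.le hcon
      linarith
    have hy : 0 < y := by
      by_contra hcon
      push Not at hcon
      have hy0 : y < 0 := by
        rcases hcon.lt_or_eq with h | h
        · exact h
        · rw [h, zero_mul] at g2; exact absurd g2 (lt_irrefl _)
      have hw0 : w < 0 := by
        by_contra hcon2
        push Not at hcon2
        have := mul_nonpos_of_nonpos_of_nonneg hy0.le hcon2
        linarith
      nlinarith [mul_pos hx (neg_pos.mpr hw0), mul_pos (neg_pos.mpr hy0) (neg_pos.mpr hz)]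
    have hw : 0 < w := (mul_pos_iff_of_pos_left hy).mp g2
    obtain ⟨a, b, p, q, i1, i2, i3, i4, i5, i6, i7⟩ := main x y z w hx hz hy hw f1 f4
    exact ⟨a, b, p, q, 1, i1, i2, i3, i4, i5, i6, Or.inl rfl, by rw [← i7, hM, one_smul]⟩

end Pool.Agent.H81SSE
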