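import Pool.Agent.H81SSE.Path.H

/-!
# Two by two matrices: change of coordinates
-/

set_option autoImplicit false
set_option linter.unusedSectionVars false

namespace Pool.Agent.H81SSE

open Matrix

/-- Real directions with a Perron eigenvalue. -/
def Pf (A₀ : Matrix (Fin 2) (Fin 2) ℝ) : Prop := 0 < A₀.trace ∧ 4 * A₀.det < A₀.trace ^ 2

lemma Pf.dec {A₀ : Matrix (Fin 2) (Fin 2) ℝ} (h : Pf A₀) :
    ∃ (S : Matrix (Fin 2) (Fin 2) ℝ) (l m : ℝ), 0 < S.det ∧ m < l ∧ 0 < l + m ∧
      A₀ * S = S * !![l, 0; 0, m] := by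
  obtain ⟨h1, h2⟩ := h
  rw [Matrix.trace_fin_two] at h1 h2
  rw [Matrix.det_fin_two] at h2
  exact Pool.Agent.H81SSE.dec A₀ h1 (by nlinarith)

lemma Pf.conj {A₀ : Matrix (Fin 2) (Fin 2) ℝ} (h : Pf A₀) {g gi : Matrix (Fin 2) (Fin 2) ℤ}
    (hg : g * gi = 1) : Pf (cR gi * A₀ * cR g) := by
  have hg1 : cR g * cR gi = 1 := by rw [← cR_mul, hg, cR_one]
  have e1 : (cR gi * A₀ * cR g).trace = A₀.trace := by
    rw [Matrix.mul_assoc, Matrix.trace_mul_comm, Matrix.mul_assoc, hg1, Matrix.mul_one]
  have e2 : (cR gi * A₀ * cR g).det = A₀.det := by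
    rw [Matrix.det_mul, Matrix.det_mul]
    have : (cR g).det * (cR gi).det = 1 := by rw [← Matrix.det_mul, hg1, Matrix.det_one]
    calc (cR gi).det * A₀.det * (cR g).det = A₀.det * ((cR g).det * (cR gi).det) := by ring
      _ = A₀.det := by rw [this, mul_one]
  unfold Pf
  rw [e1, e2]
  exact h

lemma rel_same (A₀ S : Matrix (Fin 2) (Fin 2) ℝ) (l m : ℝ) (hS : 0 < S.det) (hlm : m < l)
    (hA : A₀ * S = S * !![l, 0; 0, m]) (a b p q a' b' p' q' σ : ℝ) (ha : 0 < a) (hb : 0 < b)
    (hp : 0 < p) (hq : 0 < q) (h1 : 0 < l * q + m * p) (h2 : 0 < l * p + m * q)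
    (ha' : 0 < a') (hb' : 0 < b')
    (hp' : 0 < p') (hq' : 0 < q') (h1' : 0 < l * q' + m * p') (h2' : 0 < l * p' + m * q')
    (hσ : σ * σ = 1) (D D' : Matrix (Fin 2) (Fin 2) ℤ) (hD : cR D = σ • (S * CM a b p q))
    (hD' : cR D' = σ • (S * CM a' b' p' q')) : Rel A₀ D D' := by
  have conv : ∀ (t : unitInterval) (x y : ℝ), 0 < x → 0 < y →
      0 < (1 - (t : ℝ)) * x + t * y := by
    intro t x y hx hy
    have h0 := t.2.1
    have h1 := t.2.2
    rcases h0.lt_or_eq with h | h
    · have := mul_pos h hy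
      have := mul_nonneg (sub_nonneg.mpr h1) hx.le
      linarith
    · rw [← h]; linarith
  refine rel_of_path A₀ (fun t => σ • (S * CM ((1 - (t : ℝ)) * a + t * a')
    ((1 - (t : ℝ)) * b + t * b') ((1 - (t : ℝ)) * p + t * p')
    ((1 - (t : ℝ)) * q + t * q'))) ?_ D D' ?_ ?_ ?_
  · have hc : Continuous (fun t : unitInterval => CM ((1 - (t : ℝ)) * a + t * a')
        ((1 - (t : ℝ)) * b + t * b') ((1 - (t : ℝ)) * p + t * p')
        ((1 - (t : ℝ)) * q + t * q')) := by
      refine continuous_matrix ?_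
      intro i j
      unfold CM
      fin_cases i <;> fin_cases j <;> simp <;> fun_prop
    exact ((continuous_const (y := S)).matrix_mul hc).const_smul σ
  · rw [hD]
    simp
  · rw [hD']
    simp
  · intro t
    refine val_CM A₀ S l m hS hlm hA _ _ _ _ σ (conv t _ _ ha ha') (conv t _ _ hb hb')
      (conv t _ _ hp hp') (conv t _ _ hq hq') ?_ ?_ hσ
    · have := conv t _ _ h1 h1'
      linarith
    · have := conv t _ _ h2 h2'
      linarith

lemma cR_neg (D : Matrix (Fin 2) (Fin 2) ℤ) : cR (-D) = -cR D := by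
  ext i j; simp [cR]

/-- Up to sign, all cones of one direction are linked. -/
lemma rel_or {A₀ : Matrix (Fin 2) (Fin 2) ℝ} (h : Pf A₀) (D D' : Matrix (Fin 2) (Fin 2) ℤ)
    (hD : Val A₀ (cR D)) (hD' : Val A₀ (cR D')) : Rel A₀ D D' ∨ Rel A₀ (-D) D' := by
  obtain ⟨S, l, m, hS, hlm, -, hA⟩ := h.dec
  obtain ⟨a, b, p, q, σ, k1, k2, k3, k4, k5, k6, k7, k8⟩ :=
    form_of_val A₀ S (cR D) l m hS hlm hA hD
  obtain ⟨a', b', p', q', σ', k1', k2', k3', k4', k5', k6', k7', k8'⟩ :=
    form_of_val A₀ S (cR D') l m hS hlm hA hD'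
  by_cases hs : σ = σ'
  · left
    subst hs
    exact rel_same A₀ S l m hS hlm hA a b p q a' b' p' q' σ k1 k2 k3 k4 k5 k6 k1' k2' k3' k4'
      k5' k6' (by rcases k7 with h | h <;> rw [h] <;> norm_num) D D' k8 k8'
  · right
    have hs2 : σ' = -σ := by
      rcases k7 with h | h <;> rcases k7' with h' | h'
      · exact absurd (h.trans h'.symm) hs
      · rw [h, h']
      · rw [h, h']; norm_num
      · exact absurd (h.trans h'.symm) hs
    subst hs2
    exact rel_same A₀ S l m hS hlm hA a b p q a' b' p' q' (-σ) k1 k2 k3 k4 k5 k6 k1' k2' k3'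
      k4' k5' k6' (by rcases k7 with h | h <;> rw [h] <;> norm_num) (-D) D'
      (by rw [cR_neg, k8, neg_smul]) k8'

/-- The swap. -/
def sw : Matrix (Fin 2) (Fin 2) ℤ := !![0, 1; 1, 0]

/-- The sign-correcting permutation. -/
def sg (g : Matrix (Fin 2) (Fin 2) ℤ) : Matrix (Fin 2) (Fin 2) ℤ :=
  if g.det = 1 then 1 else sw

lemma det_cases {g gi : Matrix (Fin 2) (Fin 2) ℤ} (hg : g * gi = 1) :
    (g.det = 1 ∧ gi.det = 1) ∨ (g.det = -1 ∧ gi.det = -1) := by
  have h : g.det * gi.det = 1 := by rw [← Matrix.det_mul, hg, Matrix.det_one]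
  exact Int.mul_eq_one_iff_eq_one_or_neg_one.mp h

lemma coord1 (A₀ : Matrix (Fin 2) (Fin 2) ℝ) (g gi D : Matrix (Fin 2) (Fin 2) ℤ)
    (hg : g * gi = 1) (hD : Val A₀ (cR D)) :
    Val (cR gi * A₀ * cR g) (cR (gi * D * sg g)) ∧ RelG A₀ g gi D (gi * D * sg g) := by
  obtain ⟨G, -, hG⟩ := exists_good_inner A₀ (cR D) hD.1 hD.2 Set.univ isOpen_univ trivial
  have hDdet : 0 < D.det := by
    have := hD.1
    rw [cR_det] at this; exact_mod_cast this
  have hgi : gi * g = 1 := mul_eq_one_comm.mp hg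
  have hga : gi.adjugate = gi.det • g := by
    have : gi.adjugate * (gi * g) = gi.det • g := by
      rw [← Matrix.mul_assoc, Matrix.adjugate_mul, Matrix.smul_mul, Matrix.one_mul]
    rw [hgi, Matrix.mul_one] at this
    exact this
  have hggR : cR g * cR gi = 1 := by rw [← cR_mul, hg, cR_one]
  rcases det_cases hg with ⟨d1, d2⟩ | ⟨d1, d2⟩
  · have hs : sg g = 1 := by unfold sg; rw [if_pos d1]
    rw [hs, Matrix.mul_one]
    have ha : (gi * D).adjugate = D.adjugate * g := by
      rw [Matrix.adjugate_mul_distrib, hga, d2, one_smul]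
    constructor
    · constructor
      · rw [cR_det, Matrix.det_mul, d2, one_mul]
        exact_mod_cast hDdet
      · intro i j
        rw [cR_adj, ha, cR_mul, cR_mul]
        have e : cR D.adjugate * cR g * (cR gi * A₀ * cR g) * (cR gi * cR D) =
            cR D.adjugate * (cR g * cR gi) * A₀ * ((cR g * cR gi) * cR D) := by
          simp only [Matrix.mul_assoc]
        rw [e, hggR, Matrix.mul_one, Matrix.one_mul, ← cR_adj]
        exact hD.2 i j
    · refine relG_of_good A₀ G D (gi * D) g gi hg hG ?_ ?_ ?_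
      · rw [Matrix.det_mul, d2, one_mul]; exact hDdet
      · intro i j
        rw [ha, cR_mul]
        have e : cR D.adjugate * cR g * (cR gi * G) = cR D.adjugate * (cR g * cR gi) * G := by
          simp only [Matrix.mul_assoc]
        rw [e, hggR, Matrix.mul_one, ← cR_adj]
        exact hG.2.2.1 i j
      · intro i j
        rw [cR_mul, ← Matrix.mul_assoc (cR g), hggR, Matrix.one_mul]
        exact hG.2.2.2 i j
  · have hs : sg g = sw := by
      unfold sg; rw [if_neg (by rw [d1]; norm_num)]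
    rw [hs]
    have hsw : sw.adjugate = -sw := by
      unfold sw
      rw [Matrix.adjugate_fin_two_of]
      ext i j
      fin_cases i <;> fin_cases j <;> simp
    have ha : (gi * D * sw).adjugate = sw * (D.adjugate * g) := by
      rw [Matrix.adjugate_mul_distrib, Matrix.adjugate_mul_distrib, hga, d2, hsw]
      simp
    have hdet' : (gi * D * sw).det = D.det := by
      rw [Matrix.det_mul, Matrix.det_mul, d2]
      have : sw.det = -1 := by unfold sw; rw [Matrix.det_fin_two_of]; norm_num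
      rw [this]; ring
    -- permuting rows and columns
    have hl : ∀ X : Matrix (Fin 2) (Fin 2) ℝ, (∀ i j, 0 < X i j) → ∀ i j, 0 < (cR sw * X) i j := by
      intro X hX i j
      have : cR sw * X = !![X 1 0, X 1 1; X 0 0, X 0 1] := by
        ext i j
        fin_cases i <;> fin_cases j <;> simp [cR, sw, Matrix.mul_apply, Fin.sum_univ_two]
      rw [this]
      fin_cases i <;> fin_cases j <;> simp [hX]
    have hr : ∀ X : Matrix (Fin 2) (Fin 2) ℝ, (∀ i j, 0 < X i j) → ∀ i j, 0 < (X * cR sw) i j := by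
      intro X hX i j
      have : X * cR sw = !![X 0 1, X 0 0; X 1 1, X 1 0] := by
        ext i j
        fin_cases i <;> fin_cases j <;> simp [cR, sw, Matrix.mul_apply, Fin.sum_univ_two]
      rw [this]
      fin_cases i <;> fin_cases j <;> simp [hX]
    constructor
    · constructor
      · rw [cR_det, hdet']
        exact_mod_cast hDdet
      · intro i j
        rw [cR_adj, ha, cR_mul, cR_mul, cR_mul, cR_mul]
        have e : cR sw * (cR D.adjugate * cR g) * (cR gi * A₀ * cR g) *
            (cR gi * cR D * cR sw) =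
            cR sw * ((cR D.adjugate * (cR g * cR gi) * A₀ * ((cR g * cR gi) * cR D)) *
              cR sw) := by
          simp only [Matrix.mul_assoc]
        rw [e, hggR, Matrix.mul_one, Matrix.one_mul, ← cR_adj]
        exact hl _ (hr _ hD.2) i j
    · refine relG_of_good A₀ G D (gi * D * sw) g gi hg hG ?_ ?_ ?_
      · rw [hdet']; exact hDdet
      · intro i j
        rw [ha, cR_mul, cR_mul]
        have e : cR sw * (cR D.adjugate * cR g) * (cR gi * G) =
            cR sw * (cR D.adjugate * (cR g * cR gi) * G) := by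
          simp only [Matrix.mul_assoc]
        rw [e, hggR, Matrix.mul_one, ← cR_adj]
        exact hl _ hG.2.2.1 i j
      · intro i j
        rw [cR_mul, cR_mul]
        have e : G.adjugate * A₀ * (cR g * (cR gi * cR D * cR sw)) =
            (G.adjugate * A₀ * ((cR g * cR gi) * cR D)) * cR sw := by
          simp only [Matrix.mul_assoc]
        rw [e, hggR, Matrix.one_mul]
        exact hr _ hG.2.2.2 i j

/-- All cones of one direction, in all coordinates, are linked. -/
lemma relG_step {A₀ : Matrix (Fin 2) (Fin 2) ℝ} (h : Pf A₀) (g gi D D' : Matrix (Fin 2) (Fin 2) ℤ)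
    (hg : g * gi = 1) (hD : Val A₀ (cR D)) (hD' : Val (cR gi * A₀ * cR g) (cR D')) :
    RelG A₀ g gi D D' := by
  obtain ⟨v1, r1⟩ := coord1 A₀ g gi D hg hD
  have hdet1 : 0 < (gi * D * sg g).det := by
    have := v1.1
    rw [cR_det] at this; exact_mod_cast this
  rcases rel_or (h.conj hg) _ D' v1 hD' with h1 | h1
  · exact r1.trans_right h1 hdet1
  · have hg' : (-g) * (-gi) = 1 := by rw [neg_mul_neg, hg]
    obtain ⟨v2, r2⟩ := coord1 A₀ (-g) (-gi) D hg' hD
    have e1 : -gi * D * sg (-g) = -(gi * D * sg g) := by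
      have : sg (-g) = sg g := by
        unfold sg
        rw [Matrix.det_neg]
        simp
      rw [this, Matrix.neg_mul, Matrix.neg_mul]
    rw [e1] at v2 r2
    have hdet2 : 0 < (-(gi * D * sg g)).det := by
      have := v2.1
      rw [cR_det] at this; exact_mod_cast this
    have r3 : RelG A₀ g gi D (-(gi * D * sg g)) := by
      intro K
      refine (r2 K).mono ?_
      rintro A ⟨W, W', w1, w2, w3, w4, w5⟩
      refine ⟨W, W', w1, ?_, w3, w4, w5⟩
      rw [w2]
      simp
    exact r3.trans_right h1 hdet2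

end Pool.Agent.H81SSE
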