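import Pool.Agent.H81SSE.Path.I

/-!
# Two by two matrices: chains of conjugations of any length
-/

set_option autoImplicit false
set_option linter.unusedSectionVars false

namespace Pool.Agent.H81SSE

open Matrix

abbrev M2Z := Matrix (Fin 2) (Fin 2) ℤ
abbrev M2R := Matrix (Fin 2) (Fin 2) ℝ

/-- The inverse of a matrix of determinant `1` or `-1`. -/
def uinv (g : M2Z) : M2Z := g.det • g.adjugate

lemma mul_uinv {g : M2Z} (h : g.det = 1 ∨ g.det = -1) : g * uinv g = 1 := by
  unfold uinv
  rw [Matrix.mul_smul, Matrix.mul_adjugate, smul_smul]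
  rcases h with h | h <;> rw [h] <;> simp

/-- One conjugation with a matrix from `S`, between integer matrices whose entries are bounded by
`k` times the trace. -/
def CStep (S : Finset M2Z) (k : ℤ) (M M' : M2Z) : Prop :=
  ∃ g ∈ S, (g.det = 1 ∨ g.det = -1) ∧ M * g = g * M' ∧ (∀ i j, |M i j| ≤ k * M.trace) ∧
    ∀ i j, |M' i j| ≤ k * M'.trace

/-- The directions that we use. -/
def Cset (k : ℝ) : Set M2R :=
  {A | A.trace = 1 ∧ 4 * A.det + 4 / k ^ 2 ≤ 1 ∧ ∀ i j, |A i j| ≤ k}

lemma isCompact_box (A : M2R) (r : ℝ) : IsCompact {B : M2R | ∀ i j, |B i j - A i j| ≤ r} := by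
  have h0 : IsCompact (Set.pi Set.univ (fun i => Set.pi Set.univ fun j =>
      Set.Icc (A i j - r) (A i j + r)) : Set (Fin 2 → Fin 2 → ℝ)) :=
    isCompact_univ_pi fun i => isCompact_univ_pi fun j => isCompact_Icc
  have h : ({B : M2R | ∀ i j, |B i j - A i j| ≤ r} : Set (Fin 2 → Fin 2 → ℝ)) =
      Set.pi Set.univ (fun i => Set.pi Set.univ fun j => Set.Icc (A i j - r) (A i j + r)) := by
    ext B
    constructor
    · intro hB i _ j _
      have := abs_le.mp (hB i j)
      constructor <;> linarith [this.1, this.2]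
    · intro hB i j
      have h1 := hB i trivial j trivial
      have h2 := h1.1
      have h3 := h1.2
      rw [abs_le]
      constructor <;> linarith
  rw [← h] at h0
  exact h0

lemma isClosed_Cset (k : ℝ) : IsClosed (Cset k) := by
  unfold Cset
  simp only [Set.ofPred_and, Set.ofPred_forall]
  refine IsClosed.inter (isClosed_eq continuous_id.matrix_trace continuous_const)
    (IsClosed.inter (isClosed_le ((continuous_const.mul continuous_id.matrix_det).add
      continuous_const) continuous_const) ?_)
  refine isClosed_iInter fun i => isClosed_iInter fun j => ?_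
  exact isClosed_le (continuous_id.matrix_elem i j).abs continuous_const

lemma isCompact_Cset (k : ℝ) : IsCompact (Cset k) := by
  refine (isCompact_box 0 k).of_isClosed_subset (isClosed_Cset k) ?_
  intro A hA i j
  have := hA.2.2 i j
  simpa using this

lemma Cset_pf {k : ℝ} (hk : 0 < k) {A : M2R} (hA : A ∈ Cset k) : Pf A := by
  obtain ⟨h1, h2, -⟩ := hA
  refine ⟨by rw [h1]; norm_num, ?_⟩
  rw [h1]
  have : 0 < 4 / k ^ 2 := by positivity
  linarith

lemma isOpen_val (D : M2R) : IsOpen {A : M2R | Val A D} := by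
  unfold Val
  simp only [Set.ofPred_and, Set.ofPred_forall]
  refine IsOpen.inter isOpen_const ?_
  refine isOpen_iInter_of_finite fun i => isOpen_iInter_of_finite fun j => ?_
  exact isOpen_lt continuous_const
    (((continuous_const.matrix_mul continuous_id).matrix_mul continuous_const).matrix_elem i j)

/-- A direction with a Perron eigenvalue has a cone. -/
lemma exists_val {A : M2R} (hA : Pf A) : ∃ D : M2Z, Val A (cR D) := by
  obtain ⟨S, l, m, hS, hlm, hlm', hA'⟩ := hA.dec
  have hv := val_CM A S l m hS hlm hA' 1 1 1 1 1 one_pos one_pos one_pos one_pos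
    (by linarith) (by linarith) (by norm_num)
  obtain ⟨D, hD⟩ := exists_good A _ hv.1 hv.2
  exact ⟨D, hD.val⟩

/-- A closed box around the direction on which the cone works. -/
lemma exists_val_box {A : M2R} (hA : Pf A) :
    ∃ (D : M2Z) (r : ℝ), 0 < r ∧ ∀ B : M2R, (∀ i j, |B i j - A i j| ≤ r) → Val B (cR D) := by
  obtain ⟨D, hD⟩ := exists_val hA
  have h1 := (isOpen_val (cR D)).mem_nhds hD
  by_contra hcon
  push Not at hcon
  have h3 : ∀ m : ℕ, ∃ B : M2R, (∀ i j, |B i j - A i j| ≤ 1 / ((m : ℝ) + 1)) ∧
      ¬ Val B (cR D) := fun m => hcon D (1 / ((m : ℝ) + 1)) (by positivity)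
  choose B hB hB' using h3
  have h4 : Filter.Tendsto B Filter.atTop (nhds A) := by
    refine tendsto_pi_nhds.mpr fun i => tendsto_pi_nhds.mpr fun j => ?_
    rw [tendsto_iff_dist_tendsto_zero]
    refine squeeze_zero (fun _ => dist_nonneg) (fun m => ?_)
      tendsto_one_div_add_atTop_nhds_zero_nat
    rw [Real.dist_eq]
    exact hB m i j
  obtain ⟨m, hm⟩ := (h4.eventually h1).exists
  exact hB' m hm

end Pool.Agent.H81SSE
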