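import Pool.Agent.H81SSE.Path.J

/-!
# Two by two matrices: the chain theorem
-/

set_option autoImplicit false
set_option linter.unusedSectionVars false

namespace Pool.Agent.H81SSE

open Matrix

lemma fin_unif {ι : Type} (s : Finset ι) (Q : ι → ℝ → Prop)
    (h : ∀ x ∈ s, ∃ T : ℝ, ∀ τ, T ≤ τ → Q x τ) : ∃ T : ℝ, ∀ τ, T ≤ τ → ∀ x ∈ s, Q x τ := by
  classical
  choose! T hT using h
  refine ⟨∑ x ∈ s, |T x|, ?_⟩
  intro τ hτ x hx
  refine hT x hx τ ?_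
  have h3 : |T x| ≤ ∑ x ∈ s, |T x| :=
    Finset.single_le_sum (f := fun x => |T x|) (fun _ _ => abs_nonneg _) hx
  exact (le_abs_self _).trans (h3.trans hτ)

/-- The links between cones that we need, for all matrices with a large trace. -/
lemma net (S : Finset M2Z) (k : ℝ) (hk : 0 < k) :
    ∃ (t : Finset M2R) (D : M2R → M2Z) (r : M2R → ℝ) (K : ℤ) (T : ℝ), 0 < T ∧
      (∀ c ∈ t, 0 < (D c).det) ∧
      (∀ A ∈ Cset k, ∃ c ∈ t, ∀ i j, |A i j - c i j| ≤ r c) ∧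
      (∀ c ∈ t, ∀ W W' : Matrix (Fin 2) (Fin 2 ⊕ (Fin 2 ⊕ Fin 2)) ℤ,
        W * UU (D c) = W' * UU (D c) → GE K (UU (D c) * W) → GE K (UU (D c) * W') →
        QQ (UU (D c) * W) (UU (D c) * W')) ∧
      (∀ W W' : Matrix (Fin 2) (Fin 2 ⊕ (Fin 2 ⊕ Fin 2)) ℤ,
        W * UU (1 : M2Z) = W' * UU (1 : M2Z) → GE K (UU (1 : M2Z) * W) →
        GE K (UU (1 : M2Z) * W') → QQ (UU (1 : M2Z) * W) (UU (1 : M2Z) * W')) ∧
      (∀ τ, T ≤ τ → ∀ c ∈ t, ∀ c' ∈ t, ∀ g ∈ S, ∀ M : M2Z, (g.det = 1 ∨ g.det = -1) →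
        τ⁻¹ • cR M ∈ Cset k → (∀ i j, |(τ⁻¹ • cR M) i j - c i j| ≤ r c) →
        (∀ i j, |(cR (uinv g) * (τ⁻¹ • cR M) * cR g) i j - c' i j| ≤ r c') →
        ∃ W W' : Matrix (Fin 2) (Fin 2 ⊕ (Fin 2 ⊕ Fin 2)) ℤ, W * UU (D c) = M ∧
          W' * UU (D c') = uinv g * M * g ∧ GE K (UU (D c) * W) ∧ GE K (UU (D c') * W') ∧
          QQ (UU (D c) * W) (UU (D c') * W')) ∧
      (∀ τ, T ≤ τ → ∀ c ∈ t, ∀ M : M2Z,
        τ⁻¹ • cR M ∈ Cset k → (∀ i j, 1 / k ≤ (τ⁻¹ • cR M) i j) →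
        (∀ i j, |(τ⁻¹ • cR M) i j - c i j| ≤ r c) →
        ∃ W W' : Matrix (Fin 2) (Fin 2 ⊕ (Fin 2 ⊕ Fin 2)) ℤ, W * UU (1 : M2Z) = M ∧
          W' * UU (D c) = M ∧ GE K (UU (1 : M2Z) * W) ∧ GE K (UU (D c) * W') ∧
          QQ (UU (1 : M2Z) * W) (UU (D c) * W')) ∧
      (∀ τ, T ≤ τ → ∀ M : M2Z,
        τ⁻¹ • cR M ∈ Cset k → (∀ i j, 1 / k ≤ (τ⁻¹ • cR M) i j) →
        ∃ W : Matrix (Fin 2) (Fin 2 ⊕ (Fin 2 ⊕ Fin 2)) ℤ, W * UU (1 : M2Z) = M ∧
          GE K (UU (1 : M2Z) * W) ∧ QQ M (UU (1 : M2Z) * W)) := by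
  classical
  have hC := isCompact_Cset k
  have hbox : ∀ A ∈ Cset k, ∃ (D : M2Z) (r : ℝ), 0 < r ∧
      ∀ B : M2R, (∀ i j, |B i j - A i j| ≤ r) → Val B (cR D) :=
    fun A hA => exists_val_box (Cset_pf hk hA)
  choose! D r hr hval using hbox
  obtain ⟨t, ht, hcover⟩ := hC.elim_nhds_subcover
    (fun A => {B : M2R | ∀ i j, |B i j - A i j| < r A}) (by
      intro A hA
      have hopen : IsOpen {B : M2R | ∀ i j, |B i j - A i j| < r A} := by
        simp only [Set.ofPred_forall]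
        refine isOpen_iInter_of_finite fun i => isOpen_iInter_of_finite fun j => ?_
        exact isOpen_lt (((continuous_id.matrix_elem i j).sub continuous_const).abs)
          continuous_const
      refine hopen.mem_nhds ?_
      intro i j
      simpa using hr A hA)
  have hDdet : ∀ c ∈ t, 0 < (D c).det := by
    intro c hc
    have h := (hval c (ht c hc) c (by intro i j; simpa using (hr c (ht c hc)).le)).1
    rw [cR_det] at h; exact_mod_cast h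
  have hKc : ∀ c ∈ t, ∃ K : ℤ, ∀ W W' : Matrix (Fin 2) (Fin 2 ⊕ (Fin 2 ⊕ Fin 2)) ℤ,
      W * UU (D c) = W' * UU (D c) → GE K (UU (D c) * W) → GE K (UU (D c) * W') →
      QQ (UU (D c) * W) (UU (D c) * W') := fun c hc => connectU (D c) (hDdet c hc)
  choose! Kc hKc using hKc
  obtain ⟨K1, hK1⟩ := connectU (1 : M2Z) (by simp)
  set K : ℤ := max K1 (∑ c ∈ t, |Kc c|) with hKdef
  have hKK : ∀ c ∈ t, Kc c ≤ K := by
    intro c hc
    have h3 : |Kc c| ≤ ∑ c ∈ t, |Kc c| :=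
      Finset.single_le_sum (f := fun c => |Kc c|) (fun _ _ => abs_nonneg _) hc
    exact (le_abs_self _).trans (h3.trans (le_max_right _ _))
  obtain ⟨C1, hC1⟩ := endU (1 : M2Z) (by simp) K
  -- compact pieces
  have hclosed : ∀ (c : M2R) (ρ : ℝ) (f : M2R → M2R), Continuous f →
      IsClosed {B : M2R | ∀ i j, |f B i j - c i j| ≤ ρ} := by
    intro c ρ f hf
    simp only [Set.ofPred_forall]
    refine isClosed_iInter fun i => isClosed_iInter fun j => ?_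
    exact isClosed_le (((hf.matrix_elem i j).sub continuous_const).abs) continuous_const
  have hpos : IsClosed {B : M2R | ∀ i j, 1 / k ≤ B i j} := by
    simp only [Set.ofPred_forall]
    refine isClosed_iInter fun i => isClosed_iInter fun j => ?_
    exact isClosed_le continuous_const (continuous_id.matrix_elem i j)
  -- positive directions
  have hval1 : ∀ A : M2R, (∀ i j, 1 / k ≤ A i j) → Val A (cR (1 : M2Z)) := by
    intro A hA
    rw [cR_one]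
    refine ⟨by simp, ?_⟩
    intro i j
    rw [Matrix.adjugate_one, Matrix.one_mul, Matrix.mul_one]
    exact lt_of_lt_of_le (by positivity) (hA i j)
  have hP1 : ∃ T : ℝ, ∀ τ, T ≤ τ → ∀ c ∈ t, ∀ c' ∈ t, ∀ g ∈ S, ∀ M : M2Z,
      (g.det = 1 ∨ g.det = -1) →
      τ⁻¹ • cR M ∈ Cset k → (∀ i j, |(τ⁻¹ • cR M) i j - c i j| ≤ r c) →
      (∀ i j, |(cR (uinv g) * (τ⁻¹ • cR M) * cR g) i j - c' i j| ≤ r c') →
      ∃ W W' : Matrix (Fin 2) (Fin 2 ⊕ (Fin 2 ⊕ Fin 2)) ℤ, W * UU (D c) = M ∧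
        W' * UU (D c') = uinv g * M * g ∧ GE K (UU (D c) * W) ∧ GE K (UU (D c') * W') ∧
        QQ (UU (D c) * W) (UU (D c') * W') := by
    refine fin_unif t _ fun c hc => fin_unif t _ fun c' hc' => fin_unif S _ fun g hg => ?_
    by_cases hgd : g.det = 1 ∨ g.det = -1
    · have hcomp : IsCompact (Cset k ∩ ({B : M2R | ∀ i j, |B i j - c i j| ≤ r c} ∩
          {B : M2R | ∀ i j, |(cR (uinv g) * B * cR g) i j - c' i j| ≤ r c'})) := by
        refine hC.of_isClosed_subset ?_ Set.inter_subset_left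
        refine (isClosed_Cset k).inter ((hclosed c (r c) id continuous_id).inter
          (hclosed c' (r c') (fun B => cR (uinv g) * B * cR g)
            ((continuous_const.matrix_mul continuous_id).matrix_mul continuous_const)))
      obtain ⟨T, hT0, hT⟩ := compact_ev _ hcomp
        (fun M => ∃ W W' : Matrix (Fin 2) (Fin 2 ⊕ (Fin 2 ⊕ Fin 2)) ℤ, W * UU (D c) = M ∧
          W' * UU (D c') = uinv g * M * g ∧ GE K (UU (D c) * W) ∧ GE K (UU (D c') * W') ∧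
          QQ (UU (D c) * W) (UU (D c') * W')) (by
        rintro A₀ ⟨hA1, hA2, hA3⟩
        exact relG_step (Cset_pf hk hA1) g (uinv g) (D c) (D c') (mul_uinv hgd)
          (hval c (ht c hc) A₀ hA2) (hval c' (ht c' hc') _ hA3) K)
      exact ⟨T, fun τ hτ M _ h1 h2 h3 => hT τ hτ M ⟨h1, h2, h3⟩⟩
    · exact ⟨0, fun τ hτ M h => absurd h hgd⟩
  have hP2 : ∃ T : ℝ, ∀ τ, T ≤ τ → ∀ c ∈ t, ∀ M : M2Z,
      τ⁻¹ • cR M ∈ Cset k → (∀ i j, 1 / k ≤ (τ⁻¹ • cR M) i j) →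
      (∀ i j, |(τ⁻¹ • cR M) i j - c i j| ≤ r c) →
      ∃ W W' : Matrix (Fin 2) (Fin 2 ⊕ (Fin 2 ⊕ Fin 2)) ℤ, W * UU (1 : M2Z) = M ∧
        W' * UU (D c) = M ∧ GE K (UU (1 : M2Z) * W) ∧ GE K (UU (D c) * W') ∧
        QQ (UU (1 : M2Z) * W) (UU (D c) * W') := by
    refine fin_unif t _ fun c hc => ?_
    have hcomp : IsCompact (Cset k ∩ ({B : M2R | ∀ i j, 1 / k ≤ B i j} ∩
        {B : M2R | ∀ i j, |B i j - c i j| ≤ r c})) := by
      refine hC.of_isClosed_subset ?_ Set.inter_subset_left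
      exact (isClosed_Cset k).inter (hpos.inter (hclosed c (r c) id continuous_id))
    obtain ⟨T, hT0, hT⟩ := compact_ev _ hcomp
      (fun M => ∃ W W' : Matrix (Fin 2) (Fin 2 ⊕ (Fin 2 ⊕ Fin 2)) ℤ, W * UU (1 : M2Z) = M ∧
        W' * UU (D c) = M ∧ GE K (UU (1 : M2Z) * W) ∧ GE K (UU (D c) * W') ∧
        QQ (UU (1 : M2Z) * W) (UU (D c) * W')) (by
      rintro A₀ ⟨hA1, hA2, hA3⟩
      have h1 := relG_step (Cset_pf hk hA1) 1 1 1 (D c) (mul_one _)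
        (hval1 A₀ hA2) (by
          rw [cR_one, Matrix.one_mul, Matrix.mul_one]
          exact hval c (ht c hc) A₀ hA3) K
      refine h1.mono ?_
      rintro M ⟨W, W', w1, w2, w3, w4, w5⟩
      rw [Matrix.one_mul, Matrix.mul_one] at w2
      exact ⟨W, W', w1, w2, w3, w4, w5⟩)
    exact ⟨T, fun τ hτ M h1 h2 h3 => hT τ hτ M ⟨h1, h2, h3⟩⟩
  have hP3 : ∃ T : ℝ, ∀ τ, T ≤ τ → ∀ M : M2Z,
      τ⁻¹ • cR M ∈ Cset k → (∀ i j, 1 / k ≤ (τ⁻¹ • cR M) i j) →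
      ∃ W : Matrix (Fin 2) (Fin 2 ⊕ (Fin 2 ⊕ Fin 2)) ℤ, W * UU (1 : M2Z) = M ∧
        GE K (UU (1 : M2Z) * W) ∧ QQ M (UU (1 : M2Z) * W) := by
    have hcomp : IsCompact (Cset k ∩ {B : M2R | ∀ i j, 1 / k ≤ B i j}) := by
      refine hC.of_isClosed_subset ?_ Set.inter_subset_left
      exact (isClosed_Cset k).inter hpos
    obtain ⟨T, hT0, hT⟩ := compact_ev _ hcomp
      (fun M => GE C1 ((1 : M2Z).adjugate * M * 1)) (by
      rintro A₀ ⟨hA1, hA2⟩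
      refine Ev.big A₀ _ _ ?_ C1
      rw [← cR_adj]
      exact (hval1 A₀ hA2).2)
    refine ⟨T, fun τ hτ M h1 h2 => ?_⟩
    obtain ⟨-, W, w1, w2, w3⟩ := hC1 M (hT τ hτ M ⟨h1, h2⟩)
    rw [Matrix.adjugate_one, Matrix.one_mul, Matrix.mul_one] at w3
    exact ⟨W, w1, w2, w3⟩
  obtain ⟨T1, hT1⟩ := hP1
  obtain ⟨T2, hT2⟩ := hP2
  obtain ⟨T3, hT3⟩ := hP3
  refine ⟨t, D, r, K, max 1 (max T1 (max T2 T3)), by positivity, hDdet, ?_, ?_, ?_, ?_, ?_, ?_⟩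
  · intro A hA
    have h := hcover hA
    simp only [Set.mem_iUnion, Set.mem_ofPred_eq] at h
    obtain ⟨c, hc, h2⟩ := h
    exact ⟨c, hc, fun i j => (h2 i j).le⟩
  · intro c hc W W' h1 h2 h3
    exact hKc c hc W W' h1 (h2.mono (hKK c hc)) (h3.mono (hKK c hc))
  · intro W W' h1 h2 h3
    exact hK1 W W' h1 (h2.mono (le_max_left _ _)) (h3.mono (le_max_left _ _))
  · intro τ hτ
    exact hT1 τ ((le_max_left _ _).trans ((le_max_right _ _).trans hτ))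
  · intro τ hτ
    exact hT2 τ ((le_max_left _ _).trans ((le_max_right _ _).trans ((le_max_right _ _).trans hτ)))
  · intro τ hτ
    exact hT3 τ ((le_max_right _ _).trans ((le_max_right _ _).trans ((le_max_right _ _).trans hτ)))

end Pool.Agent.H81SSE
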