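import Pool.Agent.H81SSE.Path.K

/-!
# Two by two matrices: the chain theorem, final form
-/

set_option autoImplicit false
set_option linter.unusedSectionVars false

namespace Pool.Agent.H81SSE

open Matrix

lemma cR_trace (M : M2Z) : (cR M).trace = (M.trace : ℝ) := by
  rw [Matrix.trace_fin_two, Matrix.trace_fin_two]
  simp [cR]

theorem chain_Z (S : Finset M2Z) (k : ℤ) (hk : 1 ≤ k) :
    ∃ T : ℤ, ∀ A B : M2Z, T ≤ A.trace → (∀ i j, A.trace ≤ k * A i j) →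
      (∀ i j, B.trace ≤ k * B i j) → Relation.ReflTransGen (CStep S k) A B → QQ A B := by
  have hkR : (1 : ℝ) ≤ k := by exact_mod_cast hk
  have hk0 : (0 : ℝ) < k := by linarith
  obtain ⟨t, D, r, K, T, hT0, hDdet, hcov, hcon, hcon1, hst, hen, hen1⟩ := net S (k : ℝ) hk0
  refine ⟨⌈T⌉, ?_⟩
  intro A B hA hApos hBpos hchain
  set τ : ℝ := (A.trace : ℝ) with hτdef
  have hτ : T ≤ τ := (Int.le_ceil T).trans (by rw [hτdef]; exact_mod_cast hA)
  have hτ0 : 0 < τ := by linarith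
  have htr0 : 0 < A.trace := by
    have h := hτ0
    rw [hτdef] at h
    exact_mod_cast h
  have hA0 : NN A := by
    intro i j
    have h1 := hApos i j
    by_contra hcon
    push Not at hcon
    nlinarith
  rcases hchain.cases_head with rfl | ⟨M1, hM1, -⟩
  · exact QQ.refl A hA0
  obtain ⟨g1, -, -, -, hAb, -⟩ := hM1
  have hdisc : 4 * (k ^ 2 * A.det) + 4 * A.trace ^ 2 ≤ k ^ 2 * A.trace ^ 2 := by
    have h1 := hApos 0 1
    have h2 := hApos 1 0
    have h3 : A.trace * A.trace ≤ (k * A 0 1) * (k * A 1 0) :=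
      mul_le_mul h1 h2 htr0.le (le_trans htr0.le h1)
    rw [Matrix.det_fin_two]
    rw [Matrix.trace_fin_two] at h3 ⊢
    nlinarith [sq_nonneg (k * (A 0 0 - A 1 1))]
  have hmem : ∀ M : M2Z, M.trace = A.trace → M.det = A.det → (∀ i j, |M i j| ≤ k * M.trace) →
      τ⁻¹ • cR M ∈ Cset (k : ℝ) := by
    intro M h1 h2 h3
    refine ⟨?_, ?_, ?_⟩
    · rw [Matrix.trace_smul, cR_trace, h1, smul_eq_mul]
      exact inv_mul_cancel₀ hτ0.ne'
    · rw [Matrix.det_smul, Fintype.card_fin, cR_det, h2]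
      have h4 : 4 * ((k : ℝ) ^ 2 * (A.det : ℝ)) + 4 * τ ^ 2 ≤ (k : ℝ) ^ 2 * τ ^ 2 := by
        rw [hτdef]; exact_mod_cast hdisc
      have e : 4 * (τ⁻¹ ^ 2 * (A.det : ℝ)) + 4 / (k : ℝ) ^ 2 =
          (4 * ((k : ℝ) ^ 2 * (A.det : ℝ)) + 4 * τ ^ 2) / ((k : ℝ) ^ 2 * τ ^ 2) := by
        field_simp
      rw [e, div_le_one (by positivity)]
      exact h4
    · intro i j
      have h5 := h3 i j
      rw [h1] at h5
      have h6 : |((M i j : ℤ) : ℝ)| ≤ (k : ℝ) * τ := by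
        rw [hτdef]; exact_mod_cast h5
      simp only [Matrix.smul_apply, cR, Matrix.map_apply, smul_eq_mul]
      rw [abs_mul, abs_of_pos (inv_pos.mpr hτ0), inv_mul_le_iff₀ hτ0, mul_comm]
      exact h6
  have hposR : ∀ M : M2Z, M.trace = A.trace → (∀ i j, M.trace ≤ k * M i j) →
      ∀ i j, 1 / (k : ℝ) ≤ (τ⁻¹ • cR M) i j := by
    intro M h1 h2 i j
    have h3 := h2 i j
    rw [h1] at h3
    have h4 : τ ≤ (k : ℝ) * ((M i j : ℤ) : ℝ) := by rw [hτdef]; exact_mod_cast h3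
    simp only [Matrix.smul_apply, cR, Matrix.map_apply, smul_eq_mul]
    rw [div_le_iff₀ hk0, inv_mul_eq_div, div_mul_eq_mul_div, le_div_iff₀ hτ0]
    linarith
  -- the invariant
  let inv : M2Z → Prop := fun M => M.trace = A.trace ∧ M.det = A.det ∧
    (∀ i j, |M i j| ≤ k * M.trace) ∧ ∃ c ∈ t, (∀ i j, |(τ⁻¹ • cR M) i j - c i j| ≤ r c) ∧
    ∃ W : Matrix (Fin 2) (Fin 2 ⊕ (Fin 2 ⊕ Fin 2)) ℤ, W * UU (D c) = M ∧
      GE K (UU (D c) * W) ∧ QQ A (UU (D c) * W)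
  have hstart : inv A := by
    obtain ⟨c, hc, hc2⟩ := hcov _ (hmem A rfl rfl hAb)
    refine ⟨rfl, rfl, hAb, c, hc, hc2, ?_⟩
    obtain ⟨W1, W2, w1, w2, w3, w4, w5⟩ := hen τ hτ c hc A (hmem A rfl rfl hAb)
      (hposR A rfl hApos) hc2
    obtain ⟨W3, v1, v2, v3⟩ := hen1 τ hτ A (hmem A rfl rfl hAb) (hposR A rfl hApos)
    refine ⟨W2, w2, w4, ?_⟩
    exact v3.trans ((hcon1 W3 W1 (by rw [v1, w1]) v2 w3).trans w5)
  have hstep : ∀ M M' : M2Z, CStep S k M M' → inv M → inv M' := by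
    rintro M M' ⟨g, hg, hgd, hMg, hMb, hMb'⟩ ⟨i1, i2, i3, c, hc, hc2, W, w1, w2, w3⟩
    have hu : uinv g * g = 1 := mul_eq_one_comm.mp (mul_uinv hgd)
    have hM' : M' = uinv g * M * g := by
      rw [Matrix.mul_assoc, hMg, ← Matrix.mul_assoc, hu, Matrix.one_mul]
    have htr : M'.trace = A.trace := by
      rw [hM', Matrix.mul_assoc, Matrix.trace_mul_comm, Matrix.mul_assoc, mul_uinv hgd,
        Matrix.mul_one, i1]
    have hdet : M'.det = A.det := by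
      have h1 : g.det * (uinv g).det = 1 := by
        rw [← Matrix.det_mul, mul_uinv hgd, Matrix.det_one]
      rw [hM', Matrix.det_mul, Matrix.det_mul, i2]
      calc (uinv g).det * A.det * g.det = A.det * (g.det * (uinv g).det) := by ring
        _ = A.det := by rw [h1, mul_one]
    obtain ⟨c', hc', hc2'⟩ := hcov _ (hmem M' htr hdet hMb')
    have e : cR (uinv g) * (τ⁻¹ • cR M) * cR g = τ⁻¹ • cR M' := by
      rw [hM', cR_mul, cR_mul, Matrix.mul_smul, Matrix.smul_mul]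
    obtain ⟨W1, W2, v1, v2, v3, v4, v5⟩ := hst τ hτ c hc c' hc' g hg M hgd
      (hmem M i1 i2 i3) hc2 (by rw [e]; exact hc2')
    refine ⟨htr, hdet, hMb', c', hc', hc2', W2, by rw [v2, ← hM'], v4, ?_⟩
    exact w3.trans ((hcon c hc W W1 (by rw [w1, v1]) w2 v3).trans v5)
  have hend : inv B := by
    clear hBpos
    induction hchain with
    | refl => exact hstart
    | tail _ h2 ih => exact hstep _ _ h2 ih
  obtain ⟨i1, i2, i3, c, hc, hc2, W, w1, w2, w3⟩ := hend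
  obtain ⟨W1, W2, v1, v2, v3, v4, v5⟩ := hen τ hτ c hc B (hmem B i1 i2 i3)
    (hposR B i1 hBpos) hc2
  obtain ⟨W3, u1, u2, u3⟩ := hen1 τ hτ B (hmem B i1 i2 i3) (hposR B i1 hBpos)
  exact w3.trans ((hcon c hc W W2 (by rw [w1, v2]) w2 v4).trans (v5.symm.trans
    ((hcon1 W1 W3 (by rw [v1, u1]) v3 u2).trans u3.symm)))

end Pool.Agent.H81SSE
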