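import Pool.Agent.H81SSE.Path.L
import Pool.Agent.TH441.SSE2.Sign

/-!
# Two by two matrices: similar matrices without short vectors
-/

set_option autoImplicit false
set_option linter.unusedSectionVars false

namespace Pool.Agent.H81SSE

open Matrix

/-- The elementary changes of basis. -/
def E12 : M2Z := !![1, 1; 0, 1]
def E21 : M2Z := !![1, 0; 1, 1]

def Sel : Finset M2Z := {E12, E21, sw}

/-- The matrix `(a b; c d)` has trace `t`, discriminant `Δ`, positive off-diagonal entries and
moves every nonzero integer vector by much. -/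
def Cd (k t Δ a b c d : ℤ) : Prop :=
  a + d = t ∧ (a - d) ^ 2 + 4 * (b * c) = Δ ∧ 0 < b ∧ 0 < c ∧
    ∀ x y : ℤ, ¬ (x = 0 ∧ y = 0) → t ≤ k * |c * x ^ 2 + (d - a) * x * y - b * y ^ 2|

lemma Cd.bound {k t Δ a b c d : ℤ} (hk : 1 ≤ k) (ht : 0 < t) (hΔ : Δ ≤ (1 + 4 * k) * t ^ 2)
    (h : Cd k t Δ a b c d) : ∀ i j, |(!![a, b; c, d] : M2Z) i j| ≤
      (k * (1 + 4 * k)) * (!![a, b; c, d] : M2Z).trace := by
  obtain ⟨h1, h2, h3, h4, h5⟩ := h
  have hc : t ≤ k * c := by
    have := h5 1 0 (by norm_num)
    rw [show c * 1 ^ 2 + (d - a) * 1 * 0 - b * 0 ^ 2 = c by ring, abs_of_pos h4] at this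
    exact this
  have hb : t ≤ k * b := by
    have := h5 0 1 (by norm_num)
    rw [show c * 0 ^ 2 + (d - a) * 0 * 1 - b * 1 ^ 2 = -b by ring, abs_neg, abs_of_pos h3] at this
    exact this
  have h6 : 4 * (b * c) ≤ (1 + 4 * k) * t ^ 2 := by nlinarith [sq_nonneg (a - d)]
  have hb2 : b ≤ k * (1 + 4 * k) * t := by
    have h7 : 4 * b * t ≤ k * (1 + 4 * k) * t * t := by
      have h8 : 4 * b * t ≤ 4 * b * (k * c) := mul_le_mul_of_nonneg_left hc (by linarith)
      have h9 : k * (4 * (b * c)) ≤ k * ((1 + 4 * k) * t ^ 2) :=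
        mul_le_mul_of_nonneg_left h6 (by linarith)
      nlinarith
    have h10 : 4 * b ≤ k * (1 + 4 * k) * t := le_of_mul_le_mul_right h7 ht
    linarith
  have hc2 : c ≤ k * (1 + 4 * k) * t := by
    have h7 : 4 * c * t ≤ k * (1 + 4 * k) * t * t := by
      have h8 : 4 * c * t ≤ 4 * c * (k * b) := mul_le_mul_of_nonneg_left hb (by linarith)
      have h9 : k * (4 * (b * c)) ≤ k * ((1 + 4 * k) * t ^ 2) :=
        mul_le_mul_of_nonneg_left h6 (by linarith)
      nlinarith
    have h10 : 4 * c ≤ k * (1 + 4 * k) * t := le_of_mul_le_mul_right h7 ht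
    linarith
  have h11 : |a - d| ≤ (1 + 4 * k) * t := by
    apply abs_le_of_sq_le_sq _ (by positivity)
    have h12 : (a - d) ^ 2 ≤ (1 + 4 * k) * t ^ 2 := by nlinarith [mul_pos h3 h4]
    have h13 : (1 + 4 * k) * t ^ 2 ≤ ((1 + 4 * k) * t) ^ 2 := by
      have : 1 * ((1 + 4 * k) * t ^ 2) ≤ (1 + 4 * k) * ((1 + 4 * k) * t ^ 2) :=
        mul_le_mul_of_nonneg_right (by linarith) (by positivity)
      nlinarith
    linarith
  obtain ⟨h14, h15⟩ := abs_le.mp h11
  have h16 : (1 + 2 * k) * t ≤ k * (1 + 4 * k) * t := by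
    refine mul_le_mul_of_nonneg_right ?_ ht.le
    nlinarith
  have htr : (!![a, b; c, d] : M2Z).trace = t := by
    rw [Matrix.trace_fin_two]; simpa using h1
  have ha : |a| ≤ k * (1 + 4 * k) * t := by
    rw [abs_le]; constructor <;> nlinarith
  have hd : |d| ≤ k * (1 + 4 * k) * t := by
    rw [abs_le]; constructor <;> nlinarith
  intro i j
  rw [htr]
  fin_cases i <;> fin_cases j
  · simpa using ha
  · simpa [abs_of_pos h3] using hb2
  · simpa [abs_of_pos h4] using hc2
  · simpa using hd

lemma rows_cases {p q r s : ℤ} (hp : 0 ≤ p) (hq : 0 ≤ q) (hr : 0 ≤ r) (hs : 0 ≤ s)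
    (hdet : p * s - q * r = 1 ∨ p * s - q * r = -1) :
    (r ≤ p ∧ s ≤ q) ∨ (p ≤ r ∧ q ≤ s) ∨ (p = 1 ∧ q = 0 ∧ r = 0 ∧ s = 1) ∨
      (p = 0 ∧ q = 1 ∧ r = 1 ∧ s = 0) := by
  by_cases h1 : r ≤ p
  · by_cases h2 : s ≤ q
    · left; exact ⟨h1, h2⟩
    · push Not at h2
      by_cases h3 : p ≤ r
      · right; left; exact ⟨h3, h2.le⟩
      · push Not at h3
        -- p ≥ r + 1, s ≥ q + 1
        right; right; left
        have h4 : (r + 1) * (q + 1) ≤ p * s := mul_le_mul (by omega) (by omega) (by omega) hp
        have h5 : r + q + 1 ≤ p * s - q * r := by nlinarith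
        have h6 : r = 0 ∧ q = 0 := by rcases hdet with h | h <;> constructor <;> omega
        obtain ⟨rfl, rfl⟩ := h6
        have h7 : p * s = 1 := by rcases hdet with h | h <;> nlinarith
        rcases Int.mul_eq_one_iff_eq_one_or_neg_one.mp h7 with ⟨h8, h9⟩ | ⟨h8, h9⟩
        · exact ⟨h8, rfl, rfl, h9⟩
        · omega
  · push Not at h1
    by_cases h2 : q ≤ s
    · right; left; exact ⟨h1.le, h2⟩
    · push Not at h2
      right; right; right
      have h4 : (p + 1) * (s + 1) ≤ r * q := mul_le_mul (by omega) (by omega) (by omega) hr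
      have h5 : p * s - q * r ≤ -(p + s + 1) := by nlinarith
      have h6 : p = 0 ∧ s = 0 := by rcases hdet with h | h <;> constructor <;> omega
      obtain ⟨rfl, rfl⟩ := h6
      have h7 : q * r = 1 := by rcases hdet with h | h <;> nlinarith
      rcases Int.mul_eq_one_iff_eq_one_or_neg_one.mp h7 with ⟨h8, h9⟩ | ⟨h8, h9⟩
      · exact ⟨rfl, h8, h9, rfl⟩
      · omega

lemma cstep_mk {k t Δ : ℤ} (hk : 1 ≤ k) (ht : 0 < t) (hΔ : Δ ≤ (1 + 4 * k) * t ^ 2)
    {a b c d a' b' c' d' : ℤ} (h : Cd k t Δ a b c d) (h' : Cd k t Δ a' b' c' d') (g : M2Z)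
    (hg : g ∈ Sel) (hgd : g.det = 1 ∨ g.det = -1)
    (e : (!![a, b; c, d] : M2Z) * g = g * !![a', b'; c', d']) :
    CStep Sel (k * (1 + 4 * k)) !![a, b; c, d] !![a', b'; c', d'] :=
  ⟨g, hg, hgd, e, h.bound hk ht hΔ, h'.bound hk ht hΔ⟩

lemma chain_nonneg {k t Δ : ℤ} (hk : 1 ≤ k) (ht : 0 < t) (hΔ : Δ ≤ (1 + 4 * k) * t ^ 2) :
    ∀ (N : ℕ) (p q r s : ℤ), 0 ≤ p → 0 ≤ q → 0 ≤ r → 0 ≤ s → p + q + r + s ≤ N →
      (p * s - q * r = 1 ∨ p * s - q * r = -1) →
      ∀ a b c d α β γ δ : ℤ, Cd k t Δ a b c d → Cd k t Δ α β γ δ →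
      a * p + b * r = p * α + q * γ → a * q + b * s = p * β + q * δ →
      c * p + d * r = r * α + s * γ → c * q + d * s = r * β + s * δ →
      Relation.ReflTransGen (CStep Sel (k * (1 + 4 * k))) !![a, b; c, d] !![α, β; γ, δ] := by
  intro N
  induction N with
  | zero =>
    intro p q r s hp hq hr hs hN hdet
    have : p = 0 ∧ q = 0 := by constructor <;> push_cast at hN <;> omega
    obtain ⟨rfl, rfl⟩ := this
    rcases hdet with h | h <;> simp at h
  | succ N ih =>
    intro p q r s hp hq hr hs hN hdet a b c d α β γ δ hA hB e1 e2 e3 e4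
    have fA1 : c * p ^ 2 + (d - a) * p * r - b * r ^ 2 = (p * s - q * r) * γ := by
      linear_combination p * e3 - r * e1
    have fA2 : c * q ^ 2 + (d - a) * q * s - b * s ^ 2 = -(p * s - q * r) * β := by
      linear_combination q * e4 - s * e2
    obtain ⟨a1, a2, a3, a4, a5⟩ := id hA
    obtain ⟨b1, b2, b3, b4, b5⟩ := id hB
    push_cast at hN
    rcases rows_cases hp hq hr hs hdet with ⟨h1, h2⟩ | ⟨h1, h2⟩ | ⟨rfl, rfl, rfl, rfl⟩ |
      ⟨rfl, rfl, rfl, rfl⟩
    · -- the first row is larger
      have hrs : 1 ≤ r + s := by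
        by_contra hcon
        have : r = 0 ∧ s = 0 := by constructor <;> omega
        obtain ⟨rfl, rfl⟩ := this
        rcases hdet with h | h <;> simp at h
      have hb' : 0 < a + b - c - d := by
        by_contra hcon
        push Not at hcon
        have g1 : ∀ x y : ℤ, 0 ≤ y → y ≤ x → 0 ≤ c * x ^ 2 + (d - a) * x * y - b * y ^ 2 := by
          intro x y hy hxy
          have hx : 0 ≤ x := hy.trans hxy
          have g2 : c * x ^ 2 + (d - a) * x * y - b * y ^ 2 =
              (x - y) * (c * x + b * y) + (c + d - a - b) * (x * y) := by ring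
          rw [g2]
          have g3 : 0 ≤ (x - y) * (c * x + b * y) :=
            mul_nonneg (by linarith) (add_nonneg (mul_nonneg a4.le hx) (mul_nonneg a3.le hy))
          have g4 : 0 ≤ (c + d - a - b) * (x * y) := mul_nonneg (by linarith) (mul_nonneg hx hy)
          linarith
        have g5 := g1 p r hr h1
        have g6 := g1 q s hs h2
        rw [fA1] at g5
        rw [fA2] at g6
        rcases hdet with h | h <;> rw [h] at g5 g6 <;> linarith
      have hA' : Cd k t Δ (a - c) (a + b - c - d) c (c + d) := by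
        refine ⟨by linarith, by rw [← a2]; ring, hb', a4, ?_⟩
        intro x y hxy
        have := a5 (x + y) y (by
          rintro ⟨h1, h2⟩
          exact hxy ⟨by omega, h2⟩)
        rw [show c * (x + y) ^ 2 + (d - a) * (x + y) * y - b * y ^ 2 =
          c * x ^ 2 + (c + d - (a - c)) * x * y - (a + b - c - d) * y ^ 2 by ring] at this
        exact this
      refine Relation.ReflTransGen.head (cstep_mk hk ht hΔ hA hA' E12 (by simp [Sel])
        (Or.inl (by simp [E12, Matrix.det_fin_two])) ?_) ?_
      · unfold E12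
        ext i j
        fin_cases i <;> fin_cases j <;> simp [Matrix.mul_apply, Fin.sum_univ_two]
      · refine ih (p - r) (q - s) r s (by linarith) (by linarith) hr hs (by linarith) ?_ _ _ _ _
          _ _ _ _ hA' hB ?_ ?_ ?_ ?_
        · rcases hdet with h | h
          · left; linarith [h, show (p - r) * s - (q - s) * r = p * s - q * r by ring]
          · right; linarith [h, show (p - r) * s - (q - s) * r = p * s - q * r by ring]
        · linear_combination e1 - e3
        · linear_combination e2 - e4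
        · linear_combination e3
        · linear_combination e4
    · -- the second row is larger
      have hpq : 1 ≤ p + q := by
        by_contra hcon
        have : p = 0 ∧ q = 0 := by constructor <;> omega
        obtain ⟨rfl, rfl⟩ := this
        rcases hdet with h | h <;> simp at h
      have hc' : 0 < c + d - a - b := by
        by_contra hcon
        push Not at hcon
        have g1 : ∀ x y : ℤ, 0 ≤ x → x ≤ y → c * x ^ 2 + (d - a) * x * y - b * y ^ 2 ≤ 0 := by
          intro x y hx hxy
          have hy : 0 ≤ y := hx.trans hxy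
          have g2 : c * x ^ 2 + (d - a) * x * y - b * y ^ 2 =
              -((y - x) * (b * y + c * x)) - (a + b - c - d) * (x * y) := by ring
          rw [g2]
          have g3 : 0 ≤ (y - x) * (b * y + c * x) :=
            mul_nonneg (by linarith) (add_nonneg (mul_nonneg a3.le hy) (mul_nonneg a4.le hx))
          have g4 : 0 ≤ (a + b - c - d) * (x * y) := mul_nonneg (by linarith) (mul_nonneg hx hy)
          linarith
        have g5 := g1 p r hp h1
        have g6 := g1 q s hq h2
        rw [fA1] at g5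
        rw [fA2] at g6
        rcases hdet with h | h <;> rw [h] at g5 g6 <;> linarith
      have hA' : Cd k t Δ (a + b) b (c + d - a - b) (d - b) := by
        refine ⟨by linarith, by rw [← a2]; ring, a3, hc', ?_⟩
        intro x y hxy
        have := a5 x (x + y) (by
          rintro ⟨h1, h2⟩
          exact hxy ⟨h1, by omega⟩)
        rw [show c * x ^ 2 + (d - a) * x * (x + y) - b * (x + y) ^ 2 =
          (c + d - a - b) * x ^ 2 + (d - b - (a + b)) * x * y - b * y ^ 2 by ring] at this
        exact this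
      refine Relation.ReflTransGen.head (cstep_mk hk ht hΔ hA hA' E21 (by simp [Sel])
        (Or.inl (by simp [E21, Matrix.det_fin_two])) ?_) ?_
      · unfold E21
        ext i j
        fin_cases i <;> fin_cases j <;> simp [Matrix.mul_apply, Fin.sum_univ_two]
      · refine ih p q (r - p) (s - q) hp hq (by linarith) (by linarith) (by linarith) ?_ _ _ _ _
          _ _ _ _ hA' hB ?_ ?_ ?_ ?_
        · rcases hdet with h | h
          · left; linarith [h, show p * (s - q) - q * (r - p) = p * s - q * r by ring]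
          · right; linarith [h, show p * (s - q) - q * (r - p) = p * s - q * r by ring]
        · linear_combination e1
        · linear_combination e2
        · linear_combination e3 - e1
        · linear_combination e4 - e2
    · -- the identity
      have h1 : α = a := by linarith
      have h2 : β = b := by linarith
      have h3 : γ = c := by linarith
      have h4 : δ = d := by linarith
      subst h1 h2 h3 h4
      exact Relation.ReflTransGen.refl
    · -- the swap
      refine Relation.ReflTransGen.single (cstep_mk hk ht hΔ hA hB sw (by simp [Sel])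
        (Or.inr (by simp [sw, Matrix.det_fin_two])) ?_)
      unfold sw
      ext i j
      fin_cases i <;> fin_cases j <;> simp [Matrix.mul_apply, Fin.sum_univ_two] <;> linarith

/-- Similar matrices without short vectors. -/
theorem thick_Z (k : ℤ) (hk : 1 ≤ k) :
    ∃ T : ℤ, ∀ a b c d α β γ δ p q r s : ℤ, T ≤ a + d →
      a + d ≤ k * a → a + d ≤ k * b → a + d ≤ k * c → a + d ≤ k * d →
      α + δ ≤ k * α → α + δ ≤ k * β → α + δ ≤ k * γ → α + δ ≤ k * δ →
      b * c - a * d ≤ k * (a + d) ^ 2 →
      (∀ x y : ℤ, ¬ (x = 0 ∧ y = 0) →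
        a + d ≤ k * |c * x ^ 2 + (d - a) * x * y - b * y ^ 2|) →
      (p * s - q * r = 1 ∨ p * s - q * r = -1) →
      a * p + b * r = p * α + q * γ → a * q + b * s = p * β + q * δ →
      c * p + d * r = r * α + s * γ → c * q + d * s = r * β + s * δ →
      QQ (!![a, b; c, d] : M2Z) (!![α, β; γ, δ] : M2Z) := by
  obtain ⟨T, hT⟩ := chain_Z Sel (k * (1 + 4 * k)) (by nlinarith)
  refine ⟨max T 1, ?_⟩
  intro a b c d α β γ δ p q r s ht ha hb hc hd hα hβ hγ hδ hdet0 hf hdet e1 e2 e3 e4
  have ht0 : 0 < a + d := lt_of_lt_of_le (by norm_num) ((le_max_right T 1).trans ht)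
  have hpos : ∀ x : ℤ, a + d ≤ k * x → 0 < x := by
    intro x hx
    by_contra hcon
    push Not at hcon
    nlinarith
  have htr : α + δ = a + d := by
    have h : (α + δ) * (p * s - q * r) = (a + d) * (p * s - q * r) := by
      linear_combination r * e2 - s * e1 + q * e3 - p * e4
    rcases hdet with h' | h' <;> rw [h'] at h <;> linarith
  have hdd : β * γ - α * δ = b * c - a * d := by
    have h : (α * δ - β * γ) * (p * s - q * r) = (a * d - b * c) * (p * s - q * r) := by
      have h5 : (a * p + b * r) * (c * q + d * s) - (a * q + b * s) * (c * p + d * r) =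
        (p * α + q * γ) * (r * β + s * δ) - (p * β + q * δ) * (r * α + s * γ) := by
        rw [e1, e2, e3, e4]
      linear_combination -h5
    rcases hdet with h' | h' <;> rw [h'] at h <;> linarith
  rw [htr] at hα hβ hγ hδ
  have hb0 := hpos b hb
  have hc0 := hpos c hc
  have hβ0 := hpos β hβ
  have hγ0 := hpos γ hγ
  have ha0 := hpos a ha
  have hd0 := hpos d hd
  have hα0 := hpos α hα
  have hδ0 := hpos δ hδ
  -- the two data
  have hA : Cd k (a + d) ((a - d) ^ 2 + 4 * (b * c)) a b c d := ⟨rfl, rfl, hb0, hc0, hf⟩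
  have hB : Cd k (a + d) ((a - d) ^ 2 + 4 * (b * c)) α β γ δ := by
    refine ⟨htr, ?_, hβ0, hγ0, ?_⟩
    · have h1 : (α - δ) ^ 2 + 4 * (β * γ) = (α + δ) ^ 2 + 4 * (β * γ - α * δ) := by ring
      rw [h1, htr, hdd]; ring
    · intro x y hxy
      have key : c * (p * x + q * y) ^ 2 + (d - a) * (p * x + q * y) * (r * x + s * y) -
          b * (r * x + s * y) ^ 2 =
          (p * s - q * r) * (γ * x ^ 2 + (δ - α) * x * y - β * y ^ 2) := by
        linear_combination (p * x + q * y) * x * e3 + (p * x + q * y) * y * e4 -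
          (r * x + s * y) * x * e1 - (r * x + s * y) * y * e2
      have h1 := hf (p * x + q * y) (r * x + s * y) (by
        rintro ⟨h1, h2⟩
        apply hxy
        have h3 : (p * s - q * r) * x = 0 := by linear_combination s * h1 - q * h2
        have h4 : (p * s - q * r) * y = 0 := by linear_combination p * h2 - r * h1
        rcases hdet with h | h <;> rw [h] at h3 h4 <;> constructor <;> linarith)
      rw [key, abs_mul] at h1
      have h5 : |p * s - q * r| = 1 := by rcases hdet with h | h <;> rw [h] <;> simp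
      rw [h5, one_mul] at h1
      exact h1
  have hΔ : (a - d) ^ 2 + 4 * (b * c) ≤ (1 + 4 * k) * (a + d) ^ 2 := by nlinarith
  have hkk : k ≤ k * (1 + 4 * k) := by nlinarith
  have hTa : T ≤ a + d := (le_max_left _ _).trans ht
  have bA : ∀ i j, (!![a, b; c, d] : M2Z).trace ≤
      (k * (1 + 4 * k)) * (!![a, b; c, d] : M2Z) i j := by
    intro i j
    have h1 : ∀ x : ℤ, 0 < x → a + d ≤ k * x → a + d ≤ (k * (1 + 4 * k)) * x := by
      intro x hx hx2
      exact hx2.trans (mul_le_mul_of_nonneg_right hkk hx.le)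
    rw [Matrix.trace_fin_two]
    fin_cases i <;> fin_cases j
    · simpa using h1 a ha0 ha
    · simpa using h1 b hb0 hb
    · simpa using h1 c hc0 hc
    · simpa using h1 d hd0 hd
  have bB : ∀ i j, (!![α, β; γ, δ] : M2Z).trace ≤
      (k * (1 + 4 * k)) * (!![α, β; γ, δ] : M2Z) i j := by
    intro i j
    have h1 : ∀ x : ℤ, 0 < x → a + d ≤ k * x → α + δ ≤ (k * (1 + 4 * k)) * x := by
      intro x hx hx2
      rw [htr]
      exact hx2.trans (mul_le_mul_of_nonneg_right hkk hx.le)
    rw [Matrix.trace_fin_two]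
    fin_cases i <;> fin_cases j
    · simpa using h1 α hα0 hα
    · simpa using h1 β hβ0 hβ
    · simpa using h1 γ hγ0 hγ
    · simpa using h1 δ hδ0 hδ
  have trA : T ≤ (!![a, b; c, d] : M2Z).trace := by
    rw [Matrix.trace_fin_two]; simpa using hTa
  have trB : T ≤ (!![α, β; γ, δ] : M2Z).trace := by
    rw [Matrix.trace_fin_two]; simpa [htr] using hTa
  -- the inverse intertwiner
  have f1 : α * s + β * (-r) = s * a + (-q) * c := by
    have h : (α * s + β * (-r)) * (p * s - q * r) = (s * a + (-q) * c) * (p * s - q * r) := by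
      linear_combination (-(s ^ 2)) * e1 + q * s * e3 + r * s * e2 - q * r * e4
    rcases hdet with h' | h' <;> rw [h'] at h <;> linarith
  have f2 : α * (-q) + β * p = s * b + (-q) * d := by
    have h : (α * (-q) + β * p) * (p * s - q * r) = (s * b + (-q) * d) * (p * s - q * r) := by
      linear_combination (q * s) * e1 - q ^ 2 * e3 - p * s * e2 + p * q * e4
    rcases hdet with h' | h' <;> rw [h'] at h <;> linarith
  have f3 : γ * s + δ * (-r) = (-r) * a + p * c := by
    have h : (γ * s + δ * (-r)) * (p * s - q * r) = ((-r) * a + p * c) * (p * s - q * r) := by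
      linear_combination (r * s) * e1 - p * s * e3 - r ^ 2 * e2 + p * r * e4
    rcases hdet with h' | h' <;> rw [h'] at h <;> linarith
  have f4 : γ * (-q) + δ * p = (-r) * b + p * d := by
    have h : (γ * (-q) + δ * p) * (p * s - q * r) = ((-r) * b + p * d) * (p * s - q * r) := by
      linear_combination (-(q * r)) * e1 + p * q * e3 + p * r * e2 - p ^ 2 * e4
    rcases hdet with h' | h' <;> rw [h'] at h <;> linarith
  -- the chain in one of the directions
  rcases Pool.Agent.TH441.SSE2.sign_cases p q r s a b c d α β γ δ hb0 hc0 hβ0 hγ0 hdet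
    (by linarith) (by linarith) (by linarith) (by linarith) with
    ⟨h1, h2, h3, h4⟩ | ⟨h1, h2, h3, h4⟩ | ⟨h1, h2, h3, h4⟩ | ⟨h1, h2, h3, h4⟩
  · exact hT _ _ trA bA bB (chain_nonneg hk ht0 hΔ (p + q + r + s).toNat p q r s h1 h2 h3 h4
      (Int.self_le_toNat _) hdet a b c d α β γ δ hA hB e1 e2 e3 e4)
  · exact (hT _ _ trB bB bA (chain_nonneg hk ht0 hΔ (s + -q + -r + p).toNat s (-q) (-r) p
      h4 (by linarith) (by linarith) h1 (Int.self_le_toNat _) (by
        have : s * p - -q * -r = p * s - q * r := by ring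
        rw [this]; exact hdet) α β γ δ a b c d hB hA f1 f2 f3 f4)).symm
  · exact (hT _ _ trB bB bA (chain_nonneg hk ht0 hΔ (-s + q + r + -p).toNat (-s) q r (-p)
      (by linarith) h2 h3 (by linarith) (Int.self_le_toNat _) (by
        have : -s * -p - q * r = p * s - q * r := by ring
        rw [this]; exact hdet) α β γ δ a b c d hB hA (by linear_combination -f1)
        (by linear_combination -f2) (by linear_combination -f3)
        (by linear_combination -f4))).symm
  · exact hT _ _ trA bA bB (chain_nonneg hk ht0 hΔ (-p + -q + -r + -s).toNat (-p) (-q) (-r)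
      (-s) (by linarith) (by linarith) (by linarith) (by linarith)
      (Int.self_le_toNat _) (by
        have : -p * -s - -q * -r = p * s - q * r := by ring
        rw [this]; exact hdet) a b c d α β γ δ hA hB (by linear_combination -e1)
        (by linear_combination -e2) (by linear_combination -e3) (by linear_combination -e4))

end Pool.Agent.H81SSE
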